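import Pool.Agent.BWF.Norm
import Pool.Agent.BWD.SL
import Pool.Agent.BWD.ReachG
import Pool.Agent.BWE.CK
import Pool.Agent.BWE.Mult

/-!
# Two planes, type `D`: plane elements with a central first column are elementary
-/

set_option autoImplicit false
set_option linter.unusedSectionVars false

namespace BWF

open Matrix
open BW hiding star
open BWC

theorem group_aux2 {G : Type*} [Group G] (E : Subgroup G) (u1 u2 u3 w A v : G) (hw : w ∈ E)
    (hv : v ∈ E) (h1 : ∀ e ∈ E, u1 * e * u1⁻¹ ∈ E) (h3 : ∀ e ∈ E, u3 * e * u3⁻¹ ∈ E)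
    {e₁ e₂ e₃ e₄ : G} (he₁ : e₁ ∈ E) (he₂ : e₂ ∈ E) (he₃ : e₃ ∈ E) (he₄ : e₄ ∈ E)
    (hr1 : u2 = A * e₁ * (w * u3 * w⁻¹) * e₂) (hr2 : v = A * e₃ * (w * u1 * w⁻¹) * e₄) :
    u1 * u2 * u3⁻¹ ∈ E := by
  have hA : A = v * e₄⁻¹ * (w * u1⁻¹ * w⁻¹) * e₃⁻¹ := by
    rw [hr2]; group
  have hu2 : u1 * u2 * u3⁻¹ = (u1 * (v * e₄⁻¹ * w) * u1⁻¹) * (w⁻¹ * e₃⁻¹ * e₁ * w) *
      (u3 * (w⁻¹ * e₂) * u3⁻¹) := by
    rw [hr1, hA]; group
  rw [hu2]
  exact mul_mem (mul_mem (h1 _ (mul_mem (mul_mem hv (inv_mem he₄)) hw))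
    (mul_mem (mul_mem (mul_mem (inv_mem hw) (inv_mem he₃)) he₁) hw))
    (h3 _ (mul_mem (inv_mem hw) he₂))

section Gen

variable {P : Type*} [Ring P] [StarRing P]

theorem levW_mem : lev W ∈ EU (-1) (Fin 2) P := by
  rw [← EUL_eqD]
  exact lev_mem BWE.W_mem_E

variable (P) in
/-- the plane elements which are elementary in two planes -/
def H0 : Subgroup (Matrix (Unit ⊕ Unit) (Unit ⊕ Unit) P)ˣ :=
  (EU (-1) (Fin 2) P).comap (embU (pt 0))

theorem mem_H0 {g : (Matrix (Unit ⊕ Unit) (Unit ⊕ Unit) P)ˣ} :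
    g ∈ H0 P ↔ embU (pt (0 : Fin 2)) g ∈ EU (-1) (Fin 2) P := Iff.rfl

theorem H0_of_EU {g : (Matrix (Unit ⊕ Unit) (Unit ⊕ Unit) P)ˣ} (h : g ∈ EU (-1) Unit P) :
    g ∈ H0 P := embU_mem_EU _ h

theorem H0_conj {g e : (Matrix (Unit ⊕ Unit) (Unit ⊕ Unit) P)ˣ} (hg : g ∈ UG (-1) Unit P)
    (he : e ∈ H0 P) : g * e * g⁻¹ ∈ H0 P := by
  rw [mem_H0, map_mul, map_mul, map_inv]
  exact conj_mem 0 g hg _ he

theorem same_col {g1 g2 : (Matrix (Unit ⊕ Unit) (Unit ⊕ Unit) P)ˣ} (h1 : g1 ∈ UG (-1) Unit P)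
    (h2 : g2 ∈ UG (-1) Unit P)
    (ha : g1.val (Sum.inl ()) (Sum.inl ()) = g2.val (Sum.inl ()) (Sum.inl ()))
    (hc : g1.val (Sum.inr ()) (Sum.inl ()) = g2.val (Sum.inr ()) (Sum.inl ())) :
    g1 * g2⁻¹ ∈ H0 P := by
  have h : g2⁻¹ * g1 ∈ H0 P := by
    refine H0_of_EU (Subgroup.mem_sup_left (same_cols h2 h1 ?_))
    rintro (x | x) j
    · exact ha.symm
    · exact hc.symm
  have h3 := H0_conj h2 h
  rwa [mul_inv_cancel_left] at h3

end Gen

section Mul

variable {ι : Type*} {N : ι → ℕ} {R Λ : ι → Type*} [∀ i, CommRing (R i)] [∀ i, Ring (Λ i)]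
  [∀ i, Algebra (R i) (Λ i)] (Q : ∀ i, QAlg (N i) (R i) (Λ i)) [∀ i, StarRing (Λ i)]
  (hQ : ∀ i x, star x = (Q i).conj x)

/-- `u` is an isometry with first column `(r; b)` -/
structure Col (u : (Matrix (Unit ⊕ Unit) (Unit ⊕ Unit) (∀ i, Λ i))ˣ) (r b : ∀ i, R i) : Prop where
  mem : u ∈ UG (-1) Unit (∀ i, Λ i)
  inl : u.val (Sum.inl ()) (Sum.inl ()) = cen r
  inr : u.val (Sum.inr ()) (Sum.inl ()) = cen b

include Q hQ in
theorem loC_mem (t : ∀ i, R i) : lo (cst (cen t : ∀ i, Λ i)) ∈ EU (-1) Unit (∀ i, Λ i) :=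
  lo_mem (Sk_cen Q hQ t)

include Q hQ in
theorem upC_mem (t : ∀ i, R i) : up (cst (cen t : ∀ i, Λ i)) ∈ EU (-1) Unit (∀ i, Λ i) :=
  up_mem (Sk_cen Q hQ t)

include Q hQ in
theorem Col.lo {u : (Matrix (Unit ⊕ Unit) (Unit ⊕ Unit) (∀ i, Λ i))ˣ} {r b : ∀ i, R i}
    (h : Col u r b) (t : ∀ i, R i) : Col (lo (cst (cen t)) * u) r (b + t * r) where
  mem := mul_mem (lo_mem_UG (by norm_num) (Sk_cen Q hQ t)) h.mem
  inl := by rw [lo_mul_inl, h.inl]
  inr := by rw [lo_mul_inr, h.inl, h.inr, ← cen_mul, ← cen_add]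

include Q hQ in
theorem Col.up {u : (Matrix (Unit ⊕ Unit) (Unit ⊕ Unit) (∀ i, Λ i))ˣ} {r b : ∀ i, R i}
    (h : Col u r b) (t : ∀ i, R i) : Col (up (cst (cen t)) * u) (r + t * b) b where
  mem := mul_mem (up_mem_UG (Sk_cen Q hQ t)) h.mem
  inl := by rw [up_mul_inl, h.inl, h.inr, ← cen_mul, ← cen_add]
  inr := by rw [up_mul_inr, h.inr]

/-- multiplicativity of the symbol `{r; b}` -/
def SM (Λ : ι → Type*) [∀ i, Ring (Λ i)] [∀ i, Algebra (R i) (Λ i)] [∀ i, StarRing (Λ i)]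
    (r b1 b2 : ∀ i, R i) : Prop :=
  ∀ u1 u2 u3 : (Matrix (Unit ⊕ Unit) (Unit ⊕ Unit) (∀ i, Λ i))ˣ, Col u1 r b1 → Col u2 r b2 →
    Col u3 r (b1 * b2) → u1 * u2 * u3⁻¹ ∈ H0 (∀ i, Λ i)

theorem mem_of_moves {G : Type*} [Group G] (E : Subgroup G) {u1 u2 u3 a b c : G}
    (h1 : ∀ e ∈ E, u1 * e * u1⁻¹ ∈ E) (ha : a ∈ E) (hb : b ∈ E) (hc : c ∈ E)
    (h : (a * u1) * (b * u2) * (c * u3)⁻¹ ∈ E) : u1 * u2 * u3⁻¹ ∈ E := by
  have e : u1 * u2 * u3⁻¹ = (u1 * b⁻¹ * u1⁻¹) * a⁻¹ * ((a * u1) * (b * u2) * (c * u3)⁻¹) * c := by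
    group
  rw [e]
  exact mul_mem (mul_mem (mul_mem (h1 _ (inv_mem hb)) (inv_mem ha)) h) hc

include Q hQ in
theorem SM.lo_left {r b1 b2 : ∀ i, R i} (t : ∀ i, R i) (h : SM Λ r (b1 + t * r) b2) :
    SM Λ r b1 b2 := by
  intro u1 u2 u3 h1 h2 h3
  refine mem_of_moves _ (fun e he => H0_conj h1.mem he) (H0_of_EU (loC_mem Q hQ t)) (one_mem _)
    (H0_of_EU (loC_mem Q hQ (t * b2))) (h _ _ _ (h1.lo Q hQ t) (by rw [one_mul]; exact h2) ?_)
  have := h3.lo Q hQ (t * b2)
  have e : b1 * b2 + t * b2 * r = (b1 + t * r) * b2 := by ring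
  rwa [e] at this

include Q hQ in
theorem SM.lo_right {r b1 b2 : ∀ i, R i} (t : ∀ i, R i) (h : SM Λ r b1 (b2 + t * r)) :
    SM Λ r b1 b2 := by
  intro u1 u2 u3 h1 h2 h3
  refine mem_of_moves _ (fun e he => H0_conj h1.mem he) (one_mem _) (H0_of_EU (loC_mem Q hQ t))
    (H0_of_EU (loC_mem Q hQ (t * b1))) (h _ _ _ (by rw [one_mul]; exact h1) (h2.lo Q hQ t) ?_)
  have := h3.lo Q hQ (t * b1)
  have e : b1 * b2 + t * b1 * r = b1 * (b2 + t * r) := by ring
  rwa [e] at this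

include Q hQ in
theorem SM.up {r b1 b2 : ∀ i, R i} (k : ∀ i, R i) (h : SM Λ (r + k * (b1 * b2)) b1 b2) :
    SM Λ r b1 b2 := by
  intro u1 u2 u3 h1 h2 h3
  refine mem_of_moves _ (fun e he => H0_conj h1.mem he) (H0_of_EU (upC_mem Q hQ (k * b2)))
    (H0_of_EU (upC_mem Q hQ (k * b1))) (H0_of_EU (upC_mem Q hQ k)) (h _ _ _ ?_ ?_ ?_)
  · have := h1.up Q hQ (k * b2)
    have e : r + k * b2 * b1 = r + k * (b1 * b2) := by ring
    rwa [e] at this
  · have := h2.up Q hQ (k * b1)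
    have e : r + k * b1 * b2 = r + k * (b1 * b2) := by ring
    rwa [e] at this
  · exact h3.up Q hQ k

include hQ in
theorem SM.of_prime [∀ i, IsLocalization.Away (N i : ℤ) (R i)] (p : ι → ℕ)
    (hp : ∀ i, (p i).Prime) (hpN : ∀ i, ¬ p i ∣ N i) (b1 b2 : ∀ i, R i) :
    SM Λ (pc R p) b1 b2 := by
  intro u1 u2 u3 c1 c2 c3
  have hε : (-1 : ℤ) * (-1) = 1 := by norm_num
  have : ∀ i, Fact (p i).Prime := fun i => ⟨hp i⟩
  have hcop := coprime_col Q u1 (pc R p) b1 c1.inl c1.inr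
  choose ρ hs hk hd using fun i => (Q i).fibre (p i) (hp i) (hpN i)
  choose W' hW using fun i => hs i
    !![Loc.phi (N i) (R i) (hp i) (hpN i) (b1 i), 0; 0, 1]
  have hWn : ∀ i, ∃ t : R i, (Q i).n (W' i) = b1 i + (p i : R i) * t := by
    intro i
    have h3 : Loc.phi (N i) (R i) (hp i) (hpN i) ((Q i).n (W' i) - b1 i) = 0 := by
      rw [map_sub, ← Choice.det_rho (Q i) (hp i) (hpN i) (ρ i) (hd i), hW i,
        Matrix.det_fin_two_of, mul_one, mul_zero, sub_zero, sub_self]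
    obtain ⟨t, ht⟩ := (Loc.phi_eq_zero_iff (hp i) (hpN i) _).1 h3
    exact ⟨t, by rw [← ht]; ring⟩
  choose t ht using hWn
  choose x y hxy using hcop
  have hrel : y * nn Q W' + (x - y * t) * pc R p = 1 := by
    funext i
    have h4 := hxy i
    have h5 := ht i
    change x i * (p i : R i) + y i * b1 i = 1 at h4
    change y i * (Q i).n (W' i) + (x i - y i * t i) * (p i : R i) = 1
    rw [h5]
    linear_combination h4
  obtain ⟨A, hA⟩ : ∃ A, A = UU Q W' (pc R p) y (x - y * t) hrel := ⟨_, rfl⟩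
  have A00 : A.val 0 0 = cen (pc R p) := by rw [hA]; rfl
  have A01 : A.val 0 1 = W' := by rw [hA]; rfl
  have A11' : A⁻¹.val 1 1 = cen (pc R p) := by rw [hA]; rfl
  have A01' : A⁻¹.val 0 1 = -W' := by rw [hA]; rfl
  have hcol : ∀ c : ∀ i, R i, (cen (c * (b1 + t * pc R p)) : ∀ i, Λ i) =
      star (A.val 0 1) * cen c * (-A⁻¹.val 0 1) := by
    intro c
    rw [A01, A01', neg_neg]
    funext i
    change algebraMap (R i) (Λ i) (c i * (b1 i + t i * (p i : R i))) =
      star (W' i) * algebraMap (R i) (Λ i) (c i) * W' i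
    rw [hQ, ← Algebra.commutes, mul_assoc, (Q i).conj_mul_self, ← map_mul, ht i, mul_comm (t i)]
  -- the second pair
  obtain ⟨v, hv⟩ : ∃ v : (Matrix (Unit ⊕ Unit) (Unit ⊕ Unit) (∀ i, Λ i))ˣ, Col v (pc R p) 1 :=
    ⟨sl (pc R p) (pc R p - 1) 1 1 (by ring), sl_mem_UG Q hQ _ _ _ _ _, rfl, rfl⟩
  have hvE : v ∈ H0 (∀ i, Λ i) := H0_of_EU (mem_EU_of_congr Q hQ v hv.mem (pc R p) 0 hv.inl (by
    rw [hv.inr]; congr 1; ring))
  have c1' := c1.lo Q hQ t
  have c3' := c3.lo Q hQ (b2 * t)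
  obtain ⟨e1, he1, e2, he2, r1⟩ := rel hε A u2 (lo (cst (cen (b2 * t))) * u3) c2.mem c3'.mem
    (by rw [c2.inl, A00]) (by rw [c3'.inl, A11']) (by
      rw [c3'.inr, c2.inr, ← hcol]; congr 1; ring)
  obtain ⟨e3, he3, e4, he4, r2⟩ := rel hε A v (lo (cst (cen t)) * u1) hv.mem c1'.mem
    (by rw [hv.inl, A00]) (by rw [c1'.inl, A11']) (by
      rw [c1'.inr, hv.inr, ← hcol]; congr 1; ring)
  rw [EUL_eqD] at he1 he2 he3 he4
  rw [BWE.pt_one_eq] at r1 r2
  refine mem_of_moves _ (fun e he => H0_conj c1.mem he) (H0_of_EU (loC_mem Q hQ t)) (one_mem _)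
    (H0_of_EU (loC_mem Q hQ (b2 * t))) ?_
  rw [one_mul, mem_H0, map_mul, map_mul _ _ u2, map_inv]
  exact group_aux2 _ _ _ _ _ _ _ levW_mem hvE (conj_mem 0 _ c1'.mem) (conj_mem 0 _ c3'.mem)
    he1 he2 he3 he4 r1 r2

include Q hQ in
theorem Col.coprime {u : (Matrix (Unit ⊕ Unit) (Unit ⊕ Unit) (∀ i, Λ i))ˣ} {r b : ∀ i, R i}
    (h : Col u r b) (i : ι) : IsCoprime (r i) (b i) := coprime_col Q u r b h.inl h.inr i

include hQ in
theorem S_mul [∀ i, IsLocalization.Away (N i : ℤ) (R i)] (hN : ∀ i, N i ≠ 0)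
    (r b1 b2 : ∀ i, R i) : SM Λ r b1 b2 := by
  classical
  intro u1 u2 u3 c1 c2 c3
  have key : ∀ b : ∀ i, R i, (∀ i, IsCoprime (r i) (b i)) →
      ∃ t : ∀ i, R i, (∀ i, (b + t * r) i ≠ 0) := by
    intro b hb
    refine ⟨fun i => if b i = 0 then 1 else 0, fun i => ?_⟩
    have := Loc.charZero (N i) (R i) (hN i)
    change b i + (if b i = 0 then 1 else 0) * r i ≠ 0
    split_ifs with h
    · rw [h, zero_add, one_mul]
      intro h3
      obtain ⟨x, y, h5⟩ := hb i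
      rw [h, h3, mul_zero, mul_zero, add_zero] at h5
      exact zero_ne_one h5
    · rwa [zero_mul, add_zero]
  obtain ⟨t1, ht1⟩ := key b1 (fun i => c1.coprime Q hQ i)
  obtain ⟨t2, ht2⟩ := key b2 (fun i => c2.coprime Q hQ i)
  have hcop1 : ∀ i, IsCoprime (r i) ((b1 + t1 * r) i) := fun i =>
    (c1.lo Q hQ t1).coprime Q hQ i
  have hcop2 : ∀ i, IsCoprime (r i) ((b2 + t2 * r) i) := fun i =>
    (c2.lo Q hQ t2).coprime Q hQ i
  refine SM.lo_left Q hQ t1 (SM.lo_right Q hQ t2 ?_) u1 u2 u3 c1 c2 c3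
  generalize b1 + t1 * r = b1' at ht1 hcop1
  generalize b2 + t2 * r = b2' at ht2 hcop2
  choose p k hp h5 hpN hpk using fun i => exists_prime_linear (hN i) (r i) (b1' i * b2' i)
    (by
      have := Loc.isDomain (N i) (R i) (hN i)
      exact mul_ne_zero (ht1 i) (ht2 i)) ((hcop1 i).mul_right (hcop2 i))
  refine SM.up Q hQ k ?_
  have e : r + k * (b1' * b2') = pc R p := by
    funext i
    exact (hpk i).symm
  rw [e]
  exact SM.of_prime Q hQ p hp hpN b1' b2'

end Mul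

/-! ### similitudes -/

section Sim

variable {P : Type*} [Ring P]

/-- the similitude `diag (u, 1)` of every plane, `u ^ 2 = 1` -/
def sim (n : Type*) [DecidableEq n] [Fintype n] (u : P) (hu : u * u = 1) :
    (Matrix (n ⊕ n) (n ⊕ n) P)ˣ where
  val := Matrix.fromBlocks (Matrix.diagonal fun _ => u) 0 0 1
  inv := Matrix.fromBlocks (Matrix.diagonal fun _ => u) 0 0 1
  val_inv := by simp [Matrix.fromBlocks_multiply, hu]
  inv_val := by simp [Matrix.fromBlocks_multiply, hu]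

theorem sim_embU [StarRing P] (u : P) (hu : u * u = 1) (x : (Matrix (Unit ⊕ Unit) (Unit ⊕ Unit) P)ˣ) :
    embU (pt (0 : Fin 2)) (sim Unit u hu * x * (sim Unit u hu)⁻¹) =
      sim (Fin 2) u hu * embU (pt (0 : Fin 2)) x * (sim (Fin 2) u hu)⁻¹ := by
  have hx : x.val = Matrix.fromBlocks (cst (x.val (Sum.inl ()) (Sum.inl ())))
      (cst (x.val (Sum.inl ()) (Sum.inr ()))) (cst (x.val (Sum.inr ()) (Sum.inl ())))
      (cst (x.val (Sum.inr ()) (Sum.inr ()))) := by
    ext (i | i) (j | j) <;> rfl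
  have hD : (Matrix.diagonal fun _ : Fin 2 => u) = !![u, 0; 0, u] := by
    ext i j
    fin_cases i <;> fin_cases j <;> simp
  have hi : ((sim (Fin 2) u hu)⁻¹).val = Matrix.fromBlocks !![u, 0; 0, u] 0 0 1 := by
    rw [← hD]; rfl
  have hs : (sim (Fin 2) u hu).val = Matrix.fromBlocks !![u, 0; 0, u] 0 0 1 := by
    rw [← hD]; rfl
  have hi1 : ((sim Unit u hu)⁻¹).val =
    Matrix.fromBlocks (Matrix.diagonal fun _ => u) 0 0 1 := rfl
  have hs1 : (sim Unit u hu).val =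
    Matrix.fromBlocks (Matrix.diagonal fun _ => u) 0 0 1 := rfl
  have hprod : (sim Unit u hu * x * (sim Unit u hu)⁻¹).val = Matrix.fromBlocks
      (cst (u * x.val (Sum.inl ()) (Sum.inl ()) * u)) (cst (u * x.val (Sum.inl ()) (Sum.inr ())))
      (cst (x.val (Sum.inr ()) (Sum.inl ()) * u)) (cst (x.val (Sum.inr ()) (Sum.inr ()))) := by
    rw [Units.val_mul, Units.val_mul, hs1, hi1, hx, Matrix.fromBlocks_multiply,
      Matrix.fromBlocks_multiply]
    congr 1 <;> ext i j <;> simp [cst]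
  ext1
  rw [Units.val_mul, Units.val_mul, BWE.pt_val, BWE.pt_val, hprod, hs, hi,
    Matrix.fromBlocks_multiply, Matrix.fromBlocks_multiply]
  simp only [Matrix.fromBlocks_apply₁₁, Matrix.fromBlocks_apply₁₂, Matrix.fromBlocks_apply₂₁,
    Matrix.fromBlocks_apply₂₂, cst_apply]
  congr 1 <;> ext i j <;> fin_cases i <;> fin_cases j <;> simp [hu]

variable [StarRing P]

theorem sim_conj {n : Type*} [DecidableEq n] [Fintype n] (u : P) (hu : u * u = 1)
    (hc : ∀ x, u * x = x * u) (hs : star u = u) {e : (Matrix (n ⊕ n) (n ⊕ n) P)ˣ}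
    (he : e ∈ EU (-1) n P) : sim n u hu * e * (sim n u hu)⁻¹ ∈ EU (-1) n P := by
  have hi : ((sim n u hu)⁻¹).val =
    Matrix.fromBlocks (Matrix.diagonal fun _ => u) 0 0 1 := rfl
  have hsv : (sim n u hu).val =
    Matrix.fromBlocks (Matrix.diagonal fun _ => u) 0 0 1 := rfl
  have hdc : ∀ B : Matrix n n P, (Matrix.diagonal fun _ => u) * B =
      B * Matrix.diagonal fun _ => u := by
    intro B
    ext i j
    rw [Matrix.diagonal_mul, Matrix.mul_diagonal, hc]
  have hds : (Matrix.diagonal fun _ : n => u)ᴴ = Matrix.diagonal fun _ => u := by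
    rw [Matrix.diagonal_conjTranspose]
    congr 1
    funext i
    exact hs
  have hdd : (Matrix.diagonal fun _ : n => u) * (Matrix.diagonal fun _ => u) = 1 := by
    rw [Matrix.diagonal_mul_diagonal, hu, Matrix.diagonal_one]
  have key : EU (-1) n P ≤ (EU (-1) n P).comap (MulAut.conj (sim n u hu)).toMonoidHom := by
    refine sup_le ?_ ?_
    · rintro _ ⟨B, hB, rfl⟩
      change sim n u hu * up B * (sim n u hu)⁻¹ ∈ EU (-1) n P
      have e : sim n u hu * up B * (sim n u hu)⁻¹ = up ((Matrix.diagonal fun _ => u) * B) := by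
        ext1
        rw [Units.val_mul, Units.val_mul, hi, hsv, up_val, up_val, Matrix.fromBlocks_multiply,
          Matrix.fromBlocks_multiply]
        simp only [Matrix.mul_one, Matrix.mul_zero, Matrix.zero_mul, add_zero, zero_add, hdd]
      rw [e]
      refine up_mem ?_
      unfold Sk at *
      rw [Matrix.conjTranspose_mul, hB, hds, neg_smul, one_smul, neg_neg, neg_smul, one_smul,
        neg_neg, hdc]
    · rintro _ ⟨B, hB, rfl⟩
      change sim n u hu * lo B * (sim n u hu)⁻¹ ∈ EU (-1) n P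
      have e : sim n u hu * lo B * (sim n u hu)⁻¹ = lo ((Matrix.diagonal fun _ => u) * B) := by
        ext1
        rw [Units.val_mul, Units.val_mul, hi, hsv, lo_val, lo_val, Matrix.fromBlocks_multiply,
          Matrix.fromBlocks_multiply]
        simp only [Matrix.mul_one, Matrix.one_mul, Matrix.mul_zero, Matrix.zero_mul, add_zero,
          zero_add, hdd]
        rw [hdc]
      rw [e]
      refine lo_mem ?_
      unfold Sk at *
      rw [Matrix.conjTranspose_mul, hB, hds, neg_smul, one_smul, neg_neg, neg_smul, one_smul,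
        neg_neg, hdc]
  exact key he

theorem sim_H0 (u : P) (hu : u * u = 1) (hc : ∀ x, u * x = x * u) (hs : star u = u)
    {x : (Matrix (Unit ⊕ Unit) (Unit ⊕ Unit) P)ˣ} (hx : x ∈ H0 P) :
    sim Unit u hu * x * (sim Unit u hu)⁻¹ ∈ H0 P := by
  rw [mem_H0, sim_embU]
  exact sim_conj u hu hc hs hx

end Sim

/-! ### the homomorphism from `GL₂` of the integers -/

section Int

/-- `GL₂(K) → GL₂(P)` -/
def phiM {K P : Type*} [CommRing K] [Ring P] (z : K →+* P) :
    Matrix (Fin 2) (Fin 2) K →* Matrix (Unit ⊕ Unit) (Unit ⊕ Unit) P where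
  toFun M := Matrix.fromBlocks (cst (z (M 0 0))) (cst (z (M 0 1))) (cst (z (M 1 0)))
    (cst (z (M 1 1)))
  map_one' := by
    simp [cst_one, cst_zero, Matrix.fromBlocks_one]
  map_mul' M M' := by
    rw [Matrix.fromBlocks_multiply]
    simp only [cst_mul, cst_add, Matrix.mul_apply, Fin.sum_univ_two, map_add, map_mul]

/-- the transposed inverse -/
def tinv {K : Type*} [CommRing K] :
    (Matrix (Fin 2) (Fin 2) K)ˣ →* (Matrix (Fin 2) (Fin 2) K)ˣ where
  toFun A := ⟨(A⁻¹.val)ᵀ, (A.val)ᵀ, by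
    rw [← Matrix.transpose_mul, ← Units.val_mul, mul_inv_cancel, Units.val_one,
      Matrix.transpose_one], by
    rw [← Matrix.transpose_mul, ← Units.val_mul, inv_mul_cancel, Units.val_one,
      Matrix.transpose_one]⟩
  map_one' := by
    ext1
    change ((1 : (Matrix (Fin 2) (Fin 2) K)ˣ)⁻¹.val)ᵀ = 1
    rw [inv_one, Units.val_one, Matrix.transpose_one]
  map_mul' A B := by
    ext1
    change ((A * B)⁻¹.val)ᵀ = (A⁻¹.val)ᵀ * (B⁻¹.val)ᵀ
    rw [_root_.mul_inv_rev, Units.val_mul, Matrix.transpose_mul]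

theorem tinv_val {K : Type*} [CommRing K] (A : (Matrix (Fin 2) (Fin 2) K)ˣ) :
    (tinv A).val = (A⁻¹.val)ᵀ := rfl

theorem tinv_inv_val {K : Type*} [CommRing K] (A : (Matrix (Fin 2) (Fin 2) K)ˣ) :
    ((tinv A)⁻¹).val = (A.val)ᵀ := rfl

theorem det_inv_of {K : Type*} [CommRing K] {A : (Matrix (Fin 2) (Fin 2) K)ˣ}
    (h : A.val.det = 1) : A⁻¹.val.det = 1 := by
  have h1 : A.val.det * A⁻¹.val.det = 1 := by
    rw [← Matrix.det_mul, ← Units.val_mul, mul_inv_cancel, Units.val_one, Matrix.det_one]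
  rwa [h, one_mul] at h1

variable {ι : Type*} {N : ι → ℕ} {R Λ : ι → Type*} [∀ i, CommRing (R i)] [∀ i, Ring (Λ i)]
  [∀ i, Algebra (R i) (Λ i)] (Q : ∀ i, QAlg (N i) (R i) (Λ i)) [∀ i, StarRing (Λ i)]
  (hQ : ∀ i x, star x = (Q i).conj x)

variable (R Λ) in
/-- the integers in the product ring -/
def zc : (ι → ℤ) →+* ∀ i, Λ i where
  toFun x := cen fun i => (x i : R i)
  map_one' := by
    have e : (fun i => (((1 : ι → ℤ) i : ℤ) : R i)) = 1 := by funext i; simp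
    rw [e, cen_one]
  map_mul' x y := by
    rw [← cen_mul]; congr 1; funext i; simp
  map_zero' := by
    funext i
    change algebraMap (R i) (Λ i) ((0 : ι → ℤ) i : R i) = 0
    simp
  map_add' x y := by
    rw [← cen_add]; congr 1; funext i; simp

theorem zc_apply (x : ι → ℤ) : zc R Λ x = cen fun i => (x i : R i) := rfl

variable (R Λ) in
/-- `GL₂` of the integers in the plane group -/
def Phi : (Matrix (Fin 2) (Fin 2) (ι → ℤ))ˣ →* (Matrix (Unit ⊕ Unit) (Unit ⊕ Unit) (∀ i, Λ i))ˣ :=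
  Units.map (phiM (zc R Λ))

include Q hQ in
theorem Phi_mem_UG {A : (Matrix (Fin 2) (Fin 2) (ι → ℤ))ˣ} (hA : A.val.det = 1) :
    Phi R Λ A ∈ UG (-1) Unit (∀ i, Λ i) := by
  have h : (fun i => (A.val 0 0 i : R i)) * (fun i => (A.val 1 1 i : R i)) -
      (fun i => (A.val 0 1 i : R i)) * (fun i => (A.val 1 0 i : R i)) = 1 := by
    rw [Matrix.det_fin_two] at hA
    funext i
    have h1 := congrFun hA i
    have h2 : A.val 0 0 i * A.val 1 1 i - A.val 0 1 i * A.val 1 0 i = 1 := h1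
    have h3 := congrArg (fun x : ℤ => (x : R i)) h2
    push_cast at h3
    exact h3
  have e : Phi R Λ A = sl _ _ _ _ h := Units.ext rfl
  rw [e]
  exact sl_mem_UG Q hQ _ _ _ _ _

include Q hQ in
theorem Phi_col {A : (Matrix (Fin 2) (Fin 2) (ι → ℤ))ˣ} (hA : A.val.det = 1) :
    Col (Phi R Λ A) (fun i => (A.val 0 0 i : R i)) (fun i => (A.val 1 0 i : R i)) :=
  ⟨Phi_mem_UG Q hQ hA, rfl, rfl⟩

include Q hQ in
theorem Phi_conj (g : (Matrix (Fin 2) (Fin 2) (ι → ℤ))ˣ)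
    {x : (Matrix (Unit ⊕ Unit) (Unit ⊕ Unit) (∀ i, Λ i))ˣ} (hx : x ∈ H0 (∀ i, Λ i)) :
    Phi R Λ g * x * (Phi R Λ g)⁻¹ ∈ H0 (∀ i, Λ i) := by
  obtain ⟨δ, hδ⟩ : ∃ δ, δ = g.val.det := ⟨_, rfl⟩
  have hδδ : δ * δ = 1 := by
    have h1 : g.val.det * g⁻¹.val.det = 1 := by
      rw [← Matrix.det_mul, ← Units.val_mul, mul_inv_cancel, Units.val_one, Matrix.det_one]
    rw [← hδ] at h1
    funext i
    have h2 : δ i * g⁻¹.val.det i = 1 := congrFun h1 i
    change δ i * δ i = 1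
    have h3 := Int.isUnit_iff.1 (IsUnit.of_mul_eq_one _ h2)
    rcases h3 with h3 | h3 <;> rw [h3] <;> norm_num
  let d : (Matrix (Fin 2) (Fin 2) (ι → ℤ))ˣ :=
    { val := !![δ, 0; 0, 1]
      inv := !![δ, 0; 0, 1]
      val_inv := by rw [Matrix.mul_fin_two]; simp [hδδ, Matrix.one_fin_two]
      inv_val := by rw [Matrix.mul_fin_two]; simp [hδδ, Matrix.one_fin_two] }
  have hd1 : (d * g).val.det = 1 := by
    rw [Units.val_mul, Matrix.det_mul, ← hδ]
    change Matrix.det !![δ, 0; 0, 1] * δ = 1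
    rw [Matrix.det_fin_two_of]
    linear_combination hδδ
  have hdd : d * d = 1 := by
    ext1
    change !![δ, 0; 0, 1] * !![δ, 0; 0, 1] = 1
    rw [Matrix.mul_fin_two]; simp [hδδ, Matrix.one_fin_two]
  have hg : g = d * (d * g) := by rw [← mul_assoc, hdd, one_mul]
  have hu : zc R Λ δ * zc R Λ δ = 1 := by rw [← map_mul, hδδ, map_one]
  have hd2 : Phi R Λ d = sim Unit (zc R Λ δ) hu := by
    ext1
    change Matrix.fromBlocks (cst (zc R Λ δ)) (cst (zc R Λ 0)) (cst (zc R Λ 0))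
      (cst (zc R Λ 1)) = Matrix.fromBlocks (Matrix.diagonal fun _ => zc R Λ δ) 0 0 1
    rw [map_zero, map_one, cst_zero, cst_one]
    congr 1
  have h1 := H0_conj (Phi_mem_UG (R := R) (Λ := Λ) Q hQ hd1) hx
  have h2 := sim_H0 (zc R Λ δ) hu (fun y => cen_comm _ y) (star_cen Q hQ _) h1
  rw [hg, map_mul, hd2, _root_.mul_inv_rev]
  simpa only [mul_assoc] using h2

variable (R Λ) in
/-- the preimage of `H0` (through the transposed inverse) -/
def HZ : Subgroup (Matrix (Fin 2) (Fin 2) (ι → ℤ))ˣ :=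
  (H0 (∀ i, Λ i)).comap ((Phi R Λ).comp tinv)

theorem mem_HZ {A : (Matrix (Fin 2) (Fin 2) (ι → ℤ))ˣ} :
    A ∈ HZ R Λ ↔ Phi R Λ (tinv A) ∈ H0 (∀ i, Λ i) := Iff.rfl

include Q hQ in
theorem HZ_normal : (HZ R Λ).Normal where
  conj_mem A hA g := by
    rw [mem_HZ, map_mul, map_mul, map_inv, map_mul, map_mul, map_inv]
    exact Phi_conj Q hQ _ hA

include Q hQ in
theorem el_mem_HZ (i j : Fin 2) (h : i ≠ j) (x : ι → ℤ) : el i j h x ∈ HZ R Λ := by
  have key : Phi R Λ (tinv (el i j h x)) ∈ EU (-1) Unit (∀ i, Λ i) := by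
    have h01 : (i = 0 ∧ j = 1) ∨ (i = 1 ∧ j = 0) := by
      revert h; fin_cases i <;> fin_cases j <;> simp
    rcases h01 with ⟨rfl, rfl⟩ | ⟨rfl, rfl⟩
    · have e : Phi R Λ (tinv (el 0 1 h x)) = lo (cst (cen fun i => ((-x i : ℤ) : R i))) := by
        ext1
        change phiM (zc R Λ) (((el 0 1 h x)⁻¹.val)ᵀ) = _
        rw [el_inv, el_val, lo_val]
        change Matrix.fromBlocks _ _ _ _ = _
        congr 1
        · rw [← cst_one]; congr 1
          simp
        · rw [← cst_zero]; congr 1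
          simp
        · congr 1
          rw [← zc_apply (fun i => -x i)]
          congr 1
          simp
          rfl
        · rw [← cst_one]; congr 1
          simp
      rw [e]
      exact loC_mem Q hQ _
    · have e : Phi R Λ (tinv (el 1 0 h x)) = up (cst (cen fun i => ((-x i : ℤ) : R i))) := by
        ext1
        change phiM (zc R Λ) (((el 1 0 h x)⁻¹.val)ᵀ) = _
        rw [el_inv, el_val, up_val]
        change Matrix.fromBlocks _ _ _ _ = _
        congr 1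
        · rw [← cst_one]; congr 1
          simp
        · congr 1
          rw [← zc_apply (fun i => -x i)]
          congr 1
          simp
          rfl
        · rw [← cst_zero]; congr 1
          simp
        · rw [← cst_one]; congr 1
          simp
      rw [e]
      exact upC_mem Q hQ _
  exact H0_of_EU key

theorem aux_inv {G : Type*} [Group G] (E : Subgroup G) {a b c : G}
    (hc : ∀ e ∈ E, c⁻¹ * e * c ∈ E) (h : b * a * c⁻¹ ∈ E) : a⁻¹ * b⁻¹ * (c⁻¹)⁻¹ ∈ E := by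
  have h1 := hc _ (inv_mem h)
  have e : a⁻¹ * b⁻¹ * (c⁻¹)⁻¹ = c⁻¹ * (b * a * c⁻¹)⁻¹ * c := by group
  rw [e]
  exact h1

include hQ in
theorem mul_mem_HZ [∀ i, IsLocalization.Away (N i : ℤ) (R i)] (hN : ∀ i, N i ≠ 0)
    (A B C : (Matrix (Fin 2) (Fin 2) (ι → ℤ))ˣ) (hA : A.val.det = 1) (hB : B.val.det = 1)
    (hC : C.val.det = 1) (hBA : B.val 0 0 = A.val 0 0) (hCA : C.val 0 0 = A.val 0 0)
    (hCAB : C.val 0 1 = A.val 0 1 * B.val 0 1) : A * B * C⁻¹ ∈ HZ R Λ := by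
  have hdet : ∀ X : (Matrix (Fin 2) (Fin 2) (ι → ℤ))ˣ, X.val.det = 1 →
      ((tinv X)⁻¹).val.det = 1 := by
    intro X hX
    rw [tinv_inv_val, Matrix.det_transpose, hX]
  have cA := Phi_col (R := R) (Λ := Λ) Q hQ (hdet A hA)
  have cB := Phi_col (R := R) (Λ := Λ) Q hQ (hdet B hB)
  have cC := Phi_col (R := R) (Λ := Λ) Q hQ (hdet C hC)
  simp only [tinv_inv_val, Matrix.transpose_apply] at cA cB cC
  rw [hBA] at cB
  rw [hCA, hCAB] at cC
  have e : (fun i => (((A.val 0 1 * B.val 0 1) i : ℤ) : R i)) =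
      (fun i => (B.val 0 1 i : R i)) * (fun i => (A.val 0 1 i : R i)) := by
    funext i
    simp [mul_comm]
  rw [e] at cC
  have h1 := S_mul Q hQ hN _ _ _ _ _ _ cB cA cC
  rw [mem_HZ, map_mul, map_mul, map_inv, map_mul, map_mul, map_inv]
  have h2 := aux_inv (H0 (∀ i, Λ i)) (a := Phi R Λ (tinv A)⁻¹) (b := Phi R Λ (tinv B)⁻¹)
    (c := Phi R Λ (tinv C)⁻¹) (fun e he => by
      have h3 := H0_conj (inv_mem cC.mem) he
      rwa [inv_inv] at h3) h1
  rwa [map_inv, map_inv, map_inv, inv_inv, inv_inv, inv_inv] at h2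

variable [∀ i, IsLocalization.Away (N i : ℤ) (R i)] [∀ i, Module.Free (R i) (Λ i)]
  [∀ i, Module.Finite (R i) (Λ i)]

/-- integral plane elements are elementary (Carter - Keller) -/
theorem sl_int (hN : ∀ i, N i ≠ 0) (Q : ∀ i, QAlg (N i) (R i) (Λ i))
    (hQ : ∀ i x, star x = (Q i).conj x) (a b c d : ι → ℤ)
    (h : (fun i => (a i : R i)) * (fun i => (d i : R i)) -
      (fun i => (b i : R i)) * (fun i => (c i : R i)) = 1) :
    embU (pt (0 : Fin 2)) (sl (Λ := Λ) (fun i => (a i : R i)) (fun i => (b i : R i))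
      (fun i => (c i : R i)) (fun i => (d i : R i)) h) ∈ EU (-1) (Fin 2) (∀ i, Λ i) := by
  have hdet : a * d - b * c = 1 := by
    funext i
    have h1 := congrFun h i
    have h2 : (a i : R i) * (d i : R i) - (b i : R i) * (c i : R i) = 1 := h1
    refine Loc.intCast_injective (N i) (R i) (hN i) ?_
    change ((a i * d i - b i * c i : ℤ) : R i) = ((1 : ℤ) : R i)
    push_cast
    exact h2
  let A : (Matrix (Fin 2) (Fin 2) (ι → ℤ))ˣ :=
    { val := !![d, -c; -b, a]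
      inv := !![a, c; b, d]
      val_inv := by
        have e1 : d * a + -c * b = 1 := by linear_combination hdet
        have e2 : d * c + -c * d = 0 := by ring
        have e3 : -b * a + a * b = 0 := by ring
        have e4 : -b * c + a * d = 1 := by linear_combination hdet
        rw [Matrix.mul_fin_two, Matrix.one_fin_two, e1, e2, e3, e4]
      inv_val := by
        have e1 : a * d + c * -b = 1 := by linear_combination hdet
        have e2 : a * -c + c * a = 0 := by ring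
        have e3 : b * d + d * -b = 0 := by ring
        have e4 : b * -c + d * a = 1 := by linear_combination hdet
        rw [Matrix.mul_fin_two, Matrix.one_fin_two, e1, e2, e3, e4] }
  have hA : A.val.det = 1 := by
    change Matrix.det !![d, -c; -b, a] = 1
    rw [Matrix.det_fin_two_of]
    linear_combination hdet
  have h1 := BWE.ck_abs (HZ R Λ) (HZ_normal Q hQ) (el_mem_HZ Q hQ)
    (fun A B C hA hB hC _ hBA hCA hCAB => mul_mem_HZ Q hQ hN A B C hA hB hC hBA hCA hCAB) A hA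
  have e : Phi R Λ (tinv A) = sl (Λ := Λ) (fun i => (a i : R i)) (fun i => (b i : R i))
      (fun i => (c i : R i)) (fun i => (d i : R i)) h := Units.ext rfl
  rw [mem_HZ, e] at h1
  exact h1

/-- plane elements with a central first column are elementary -/
theorem sl_two (hN : ∀ i, N i ≠ 0) (Q : ∀ i, QAlg (N i) (R i) (Λ i))
    (hQ : ∀ i x, star x = (Q i).conj x) (x0 : Fin 2)
    (g : (Matrix (Unit ⊕ Unit) (Unit ⊕ Unit) (∀ i, Λ i))ˣ) (hg : g ∈ UG (-1) Unit (∀ i, Λ i))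
    (α γ : ∀ i, R i) (h1 : g.val (Sum.inl ()) (Sum.inl ()) = cen α)
    (h2 : g.val (Sum.inr ()) (Sum.inl ()) = cen γ) :
    embU (pt x0) g ∈ EU (-1) (Fin 2) (∀ i, Λ i) := by
  classical
  have key : ∀ g : (Matrix (Unit ⊕ Unit) (Unit ⊕ Unit) (∀ i, Λ i))ˣ, ∀ α γ : ∀ i, R i,
      Col g α γ → g ∈ H0 (∀ i, Λ i) := by
    intro g α γ hg
    -- make `γ` non-zero
    obtain ⟨t0, ht0⟩ : ∃ t0 : ∀ i, R i, ∀ i, (γ + t0 * α) i ≠ 0 := by
      refine ⟨fun i => if γ i = 0 then 1 else 0, fun i => ?_⟩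
      have := Loc.charZero (N i) (R i) (hN i)
      change γ i + (if γ i = 0 then 1 else 0) * α i ≠ 0
      split_ifs with h
      · rw [h, zero_add, one_mul]
        intro h3
        obtain ⟨x, y, h5⟩ := hg.coprime Q hQ i
        rw [h, h3, mul_zero, mul_zero, add_zero] at h5
        exact zero_ne_one h5
      · rwa [zero_mul, add_zero]
    have c1 := hg.lo Q hQ t0
    choose p k hp h5 hpN hpk using fun i => exists_prime_linear (hN i) (α i) ((γ + t0 * α) i)
      (ht0 i) (c1.coprime Q hQ i)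
    have : ∀ i, Fact (p i).Prime := fun i => ⟨hp i⟩
    have c2 := c1.up Q hQ k
    have e : α + k * (γ + t0 * α) = pc R p := by
      funext i
      exact (hpk i).symm
    rw [e] at c2
    generalize γ + t0 * α = γ' at c2
    -- an integral representative
    have hint : ∀ i, ∃ (c : ℤ) (t : R i), γ' i + t * (p i : R i) = (c : R i) := by
      intro i
      obtain ⟨c, hc⟩ := ZMod.intCast_surjective (Loc.phi (N i) (R i) (hp i) (hpN i) (γ' i))
      have h3 : Loc.phi (N i) (R i) (hp i) (hpN i) ((c : R i) - γ' i) = 0 := by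
        rw [map_sub, map_intCast, hc, sub_self]
      obtain ⟨t, ht⟩ := (Loc.phi_eq_zero_iff (hp i) (hpN i) _).1 h3
      exact ⟨c, t, by rw [mul_comm t, ← ht]; ring⟩
    choose c t hct using hint
    have c3 := c2.lo Q hQ t
    have e' : γ' + t * pc R p = fun i => (c i : R i) := by
      funext i
      exact hct i
    rw [e'] at c3
    have hpc : ∀ i, IsCoprime (p i : ℤ) (c i) := by
      intro i
      rw [Int.isCoprime_iff_gcd_eq_one]
      have h3 : Nat.Coprime (p i) (c i).natAbs := by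
        rw [Nat.Prime.coprime_iff_not_dvd (hp i)]
        intro hd
        have h4 : (p i : ℤ) ∣ c i := by
          rw [← Int.natAbs_dvd_natAbs]; simpa using hd
        obtain ⟨x, y, h6⟩ := c3.coprime Q hQ i
        have h7 := congrArg (Loc.phi (N i) (R i) (hp i) (hpN i)) h6
        change Loc.phi (N i) (R i) (hp i) (hpN i) (x * (p i : R i) + y * (c i : R i)) = _ at h7
        rw [map_add, map_mul, map_mul, map_natCast, map_intCast, ZMod.natCast_self,
          (ZMod.intCast_zmod_eq_zero_iff_dvd (c i) (p i)).2 h4, mul_zero, mul_zero, add_zero,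
          map_one] at h7
        exact zero_ne_one h7
      simpa [Int.gcd] using h3
    choose x y hxy using hpc
    have hdet : (fun i => (((p i : ℤ) : ℤ) : R i)) * (fun i => (x i : R i)) -
        (fun i => ((-y i : ℤ) : R i)) * (fun i => (c i : R i)) = 1 := by
      funext i
      have h3 := congrArg (fun z : ℤ => (z : R i)) (hxy i)
      push_cast at h3
      change (((p i : ℤ) : ℤ) : R i) * (x i : R i) - ((-y i : ℤ) : R i) * (c i : R i) = 1
      push_cast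
      linear_combination h3
    have h3 := sl_int hN Q hQ (fun i => (p i : ℤ)) (fun i => -y i) c x hdet
    have h4 := same_col (g1 := sl (Λ := Λ) _ _ _ _ hdet) (sl_mem_UG Q hQ _ _ _ _ _) c3.mem
      (by rw [c3.inl]; change cen _ = cen _; congr 1; funext i; exact Int.cast_natCast _)
      (by rw [c3.inr]; rfl)
    have h5 := (Subgroup.mul_mem_cancel_left _ (mem_H0.2 h3)).1 h4
    have h6 := (Subgroup.mul_mem_cancel_left _ (H0_of_EU (loC_mem Q hQ t))).1
      ((Subgroup.inv_mem_iff _).1 h5)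
    have h7 := (Subgroup.mul_mem_cancel_left _ (H0_of_EU (upC_mem Q hQ k))).1 h6
    exact (Subgroup.mul_mem_cancel_left _ (H0_of_EU (loC_mem Q hQ t0))).1 h7
  have h3 := key g α γ ⟨hg, h1, h2⟩
  have h01 : x0 = 0 ∨ x0 = 1 := by fin_cases x0 <;> simp
  rcases h01 with rfl | rfl
  · exact h3
  · exact (pt_one_iff g).2 h3

end Int

end BWF
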