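import Pool.Agent.BWD.SL
import Pool.Agent.BWD.ReachG
import Pool.Agent.BWE.Phi

/-!
# Two planes, type `D`: the matrices of type `T`, from the claim on plane elements with a central
first column
-/

set_option autoImplicit false
set_option linter.unusedSectionVars false

namespace BWF

open Matrix
open BW hiding star
open BWC

section Gen

variable {ι : Type*} {N : ι → ℕ} {R Λ : ι → Type*} [∀ i, CommRing (R i)] [∀ i, Ring (Λ i)]
  [∀ i, StarRing (Λ i)] [∀ i, Algebra (R i) (Λ i)] (Q : ∀ i, QAlg (N i) (R i) (Λ i))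
  (hQ : ∀ i x, star x = (Q i).conj x)
  (hsl : ∀ (x0 : Fin 2) (g : (Matrix (Unit ⊕ Unit) (Unit ⊕ Unit) (∀ i, Λ i))ˣ),
    g ∈ UG (-1) Unit (∀ i, Λ i) → ∀ α γ : ∀ i, R i, g.val (Sum.inl ()) (Sum.inl ()) = cen α →
    g.val (Sum.inr ()) (Sum.inl ()) = cen γ → embU (pt x0) g ∈ EU (-1) (Fin 2) (∀ i, Λ i))

include hQ in
theorem star_mul_self_cen (x : ∀ i, Λ i) : Star.star x * x = cen (nn Q x) := by
  funext i
  change Star.star (x i) * x i = algebraMap (R i) (Λ i) ((Q i).n (x i))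
  rw [hQ, (Q i).conj_mul_self]

include hQ hsl in
/-- the relation, applied to plane elements with central first columns `(r; 1)` and `(r; n x)` -/
theorem lev_of_rel (A : (Matrix (Fin 2) (Fin 2) (∀ i, Λ i))ˣ) (x : ∀ i, Λ i) (r α β : ∀ i, R i)
    (h : α * nn Q x + β * r = 1) (h00 : A.val 0 0 = cen r) (h01 : A.val 0 1 = x)
    (h0 : A⁻¹.val 0 1 = -x) (h11 : A⁻¹.val 1 1 = cen r) :
    lev A ∈ EU (-1) (Fin 2) (∀ i, Λ i) := by
  have hε : (-1 : ℤ) * (-1) = 1 := by norm_num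
  have e1 : r * 0 - (-1) * 1 = 1 := by ring
  have e2 : r * β - (-α) * nn Q x = 1 := by linear_combination h
  obtain ⟨g, hg⟩ : ∃ g, g = (sl r (-1) 1 0 e1 :
    (Matrix (Unit ⊕ Unit) (Unit ⊕ Unit) (∀ i, Λ i))ˣ) := ⟨_, rfl⟩
  obtain ⟨g', hg'⟩ : ∃ g', g' = (sl r (-α) (nn Q x) β e2 :
    (Matrix (Unit ⊕ Unit) (Unit ⊕ Unit) (∀ i, Λ i))ˣ) := ⟨_, rfl⟩
  have hgU : g ∈ UG (-1) Unit (∀ i, Λ i) := by rw [hg]; exact sl_mem_UG Q hQ _ _ _ _ _
  have hgU' : g' ∈ UG (-1) Unit (∀ i, Λ i) := by rw [hg']; exact sl_mem_UG Q hQ _ _ _ _ _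
  have a1 : g.val (Sum.inl ()) (Sum.inl ()) = cen r := by rw [hg]; rfl
  have c1 : g.val (Sum.inr ()) (Sum.inl ()) = cen (1 : ∀ i, R i) := by rw [hg]; rfl
  have a2 : g'.val (Sum.inl ()) (Sum.inl ()) = cen r := by rw [hg']; rfl
  have c2 : g'.val (Sum.inr ()) (Sum.inl ()) = cen (nn Q x) := by rw [hg']; rfl
  obtain ⟨E1, hE1, E2, hE2, hrel⟩ := rel hε A g g' hgU hgU' (by rw [a1, h00]) (by rw [a2, h11])
    (by rw [c2, c1, h01, h0, neg_neg, cen_one, mul_one]; exact (star_mul_self_cen Q hQ x).symm)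
  rw [EUL_eqD] at hE1 hE2
  have h1 := hsl 0 g hgU r 1 a1 c1
  have h2 := hsl 1 g' hgU' r (nn Q x) a2 c2
  rw [hrel] at h1
  exact (Subgroup.mul_mem_cancel_right _ hE1).1 ((Subgroup.mul_mem_cancel_right _ h2).1
    ((Subgroup.mul_mem_cancel_right _ hE2).1 h1))

include hQ hsl in
/-- `lev (UU x r)` is elementary -/
theorem lev_UU (x : ∀ i, Λ i) (r α β : ∀ i, R i) (h : α * nn Q x + β * r = 1) :
    lev (UU Q x r α β h) ∈ EU (-1) (Fin 2) (∀ i, Λ i) :=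
  have hd := UU_data Q x r α β h
  lev_of_rel Q hQ hsl _ x r α β h hd.h00 hd.h01 hd.h0 hd.h1

include hQ hsl in
/-- `lev A` is elementary if `A` has the data `(x, r | r, x)` -/
theorem lev_of_data (A : (Matrix (Fin 2) (Fin 2) (∀ i, Λ i))ˣ) (x : ∀ i, Λ i) (r α β : ∀ i, R i)
    (h : α * nn Q x + β * r = 1) (hA : HasData A x (cen r) (cen r) x) :
    lev A ∈ EU (-1) (Fin 2) (∀ i, Λ i) := by
  have h' : α * nn Q (-x) + β * r = 1 := by rw [nn_neg, h]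
  obtain ⟨y, hy⟩ := BWE.same_data_el hA.mul_W (UU_data Q (-x) r α β h')
  have h1 : lev (A * W * (UU Q (-x) r α β h')⁻¹) ∈ EU (-1) (Fin 2) (∀ i, Λ i) := by
    rw [hy]
    exact lev_el_memD _ _ _ _
  have hW : lev (W : (Matrix (Fin 2) (Fin 2) (∀ i, Λ i))ˣ) ∈ EU (-1) (Fin 2) (∀ i, Λ i) := by
    rw [W, map_mul, map_mul]
    exact mul_mem (mul_mem (lev_el_memD _ _ _ _) (lev_el_memD _ _ _ _)) (lev_el_memD _ _ _ _)
  rw [map_mul, map_mul, map_inv] at h1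
  exact (Subgroup.mul_mem_cancel_right _ hW).1
    ((Subgroup.mul_mem_cancel_right _ (inv_mem (lev_UU Q hQ hsl (-x) r α β h'))).1 h1)

include hQ hsl in
/-- `lev` of the matrices of type `T` is elementary -/
theorem lev_Tm (x : ∀ i, Λ i) (r α β : ∀ i, R i) (h : α * (fam Q).n x + β * r = 1) :
    lev ((fam Q).Tm x r α β h) ∈ EU (-1) (Fin 2) (∀ i, Λ i) :=
  lev_of_data Q hQ hsl _ x r α β h (Tm_data Q x r α β h)

end Gen

end BWF
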