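import Pool.Agent.BWF.Norm
import Pool.Agent.BWF.SL
import Pool.Agent.BWF.TTGen

/-!
# Two planes, type `D`: the matrices of type `T`
-/

set_option autoImplicit false
set_option linter.unusedSectionVars false

namespace BWF

open Matrix
open BW hiding star
open BWC

section Fam

variable {ι : Type*} {N : ι → ℕ} {R Λ : ι → Type*} [∀ i, CommRing (R i)]
  [∀ i, IsLocalization.Away (N i : ℤ) (R i)] [∀ i, Ring (Λ i)] [∀ i, StarRing (Λ i)]
  [∀ i, Algebra (R i) (Λ i)] [∀ i, Module.Free (R i) (Λ i)] [∀ i, Module.Finite (R i) (Λ i)]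

/-- the matrices `UU` are in `H4` -/
theorem UU_mem (hN : ∀ i, N i ≠ 0) (Q : ∀ i, QAlg (N i) (R i) (Λ i))
    (hQ : ∀ i x, star x = (Q i).conj x) (x : ∀ i, Λ i) (r α β : ∀ i, R i)
    (h : α * nn Q x + β * r = 1) : UU Q x r α β h ∈ H4 (∀ i, Λ i) :=
  lev_UU Q hQ (sl_two hN Q hQ) x r α β h

/-- the matrices of type `T` are in `H4` -/
theorem Tm_mem (hN : ∀ i, N i ≠ 0) (Q : ∀ i, QAlg (N i) (R i) (Λ i))
    (hQ : ∀ i x, star x = (Q i).conj x) (x : ∀ i, Λ i) (r α β : ∀ i, R i)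
    (h : α * (fam Q).n x + β * r = 1) : (fam Q).Tm x r α β h ∈ H4 (∀ i, Λ i) :=
  lev_Tm Q hQ (sl_two hN Q hQ) x r α β h

end Fam

end BWF
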