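import Pool.Agent.BWF.Sec1
import Pool.Agent.BWF.TT

/-!
# Two planes, type `D`: `lev A` for `A` of reduced norm one
-/

set_option autoImplicit false
set_option linter.unusedSectionVars false

namespace BWF

open Matrix
open BW hiding star
open BWC

section Fam

variable {ι : Type*} {N : ι → ℕ} {R Λ : ι → Type*} [∀ i, CommRing (R i)]
  [∀ i, IsLocalization.Away (N i : ℤ) (R i)] [∀ i, Ring (Λ i)] [∀ i, StarRing (Λ i)]
  [∀ i, Algebra (R i) (Λ i)] [∀ i, Module.Free (R i) (Λ i)] [∀ i, Module.Finite (R i) (Λ i)]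

/-- `lev A`, `A` of reduced norm one, two planes -/
theorem lev_SL_two (hN : ∀ i, N i ≠ 0) (Q : ∀ i, QAlg (N i) (R i) (Λ i))
    (hQ : ∀ i x, star x = (Q i).conj x) [∀ i, NoZeroDivisors (Λ i)]
    (A : (Matrix (Fin 2) (Fin 2) (∀ i, Λ i))ˣ) (hA : A ∈ SLfam N) :
    lev A ∈ EU (-1) (Fin 2) (∀ i, Λ i) :=
  mem_H4.1 (mem_of_SLfam hN Q (H4 (∀ i, Λ i)) (fun i j h x => el_mem_H4 i j h x)
    (fun x r α β h => Tm_mem hN Q hQ x r α β h) A hA)

end Fam

end BWF
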