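import Pool.Agent.BWF.LevSL
import Pool.Agent.BWD.SpinMain

/-!
# Two planes, type `D`: assembly

The results of `BWD/Main`, `BWD/Fam`, `BWD/SpinMain`, `BWD/PMain` with `2 ≤ m` in place of `3 ≤ m`.
-/

set_option autoImplicit false
set_option linter.unusedSectionVars false

namespace BWF

open Matrix
open BW hiding star
open BWC

section Fam

variable {ι : Type*} {N : ι → ℕ} {R Λ : ι → Type} [∀ i, CommRing (R i)]
  [∀ i, IsLocalization.Away (N i : ℤ) (R i)] [∀ i, Ring (Λ i)] [∀ i, StarRing (Λ i)]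
  [∀ i, Algebra (R i) (Λ i)] [∀ i, Module.Free (R i) (Λ i)] [∀ i, Module.Finite (R i) (Λ i)]
  [∀ i, NoZeroDivisors (Λ i)]

theorem exists_embed {n : Type*} [DecidableEq n] [Fintype n] (hn : 2 ≤ Fintype.card n) (x0 : n) :
    ∃ φ : Fin 2 ↪ n, φ 0 = x0 := by
  obtain ⟨x1, hx1⟩ : ∃ x1 : n, x1 ≠ x0 := by
    have : Nontrivial n := Fintype.one_lt_card_iff_nontrivial.1 (by omega)
    exact exists_ne x0
  refine ⟨⟨![x0, x1], ?_⟩, rfl⟩
  intro a b hab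
  fin_cases a <;> fin_cases b <;> simp_all [eq_comm]

/-- plane elements with a central first column are elementary -/
theorem sl_claim2 (hN : ∀ i, N i ≠ 0) (Q : ∀ i, QAlg (N i) (R i) (Λ i))
    (hQ : ∀ i x, star x = (Q i).conj x) {n : Type*} [DecidableEq n] [Fintype n]
    (hn : 2 ≤ Fintype.card n) (x0 : n)
    (g : (Matrix (Unit ⊕ Unit) (Unit ⊕ Unit) (∀ i, Λ i))ˣ) (hg : g ∈ UG (-1) Unit (∀ i, Λ i))
    (α γ : ∀ i, R i) (h1 : g.val (Sum.inl ()) (Sum.inl ()) = cen α)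
    (h2 : g.val (Sum.inr ()) (Sum.inl ()) = cen γ) :
    embU (pt x0) g ∈ EU (-1) n (∀ i, Λ i) := by
  obtain ⟨φ, rfl⟩ := exists_embed hn x0
  have h3 := embU_mem_EU φ (sl_two hN Q hQ 0 g hg α γ h1 h2)
  rw [embU_embU] at h3
  exact h3

/-- one plane: up to the Levi subgroup everything is elementary -/
theorem redD_one2 (hN : ∀ i, N i ≠ 0) (Q : ∀ i, QAlg (N i) (R i) (Λ i))
    (hQ : ∀ i x, star x = (Q i).conj x) {n : Type*} [DecidableEq n] [Fintype n]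
    (hn : 2 ≤ Fintype.card n) (x0 : n)
    (g : (Matrix (Unit ⊕ Unit) (Unit ⊕ Unit) (∀ i, Λ i))ˣ) (hg : g ∈ UG (-1) Unit (∀ i, Λ i)) :
    ∃ q : (Matrix Unit Unit (∀ i, Λ i))ˣ, ∃ e ∈ EU (-1) n (∀ i, Λ i),
      embU (pt x0) g = e * lev (embL (pt x0) q) := by
  choose α γ q h1 h2 using fun i => one_col (hN i) (Q i) (hQ i) (comp i g) (comp_mem_UG i hg)
  let q' : (Matrix Unit Unit (∀ i, Λ i))ˣ :=
    ⟨cst fun i => (q i).val, cst fun i => (q i)⁻¹.val, by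
      rw [cst_mul, ← cst_one]; congr 1; funext i; exact (q i).mul_inv, by
      rw [cst_mul, ← cst_one]; congr 1; funext i; exact (q i).inv_mul⟩
  refine ⟨q', embU (pt x0) (g * (lev q')⁻¹), ?_, ?_⟩
  · refine sl_claim2 hN Q hQ hn x0 _ (mul_mem hg (inv_mem (lev_mem_UG q'))) α γ ?_ ?_
    · have hinv : ((lev q')⁻¹).val = Matrix.fromBlocks q'⁻¹.val 0 0 (q'.val)ᴴ := rfl
      rw [Units.val_mul, hinv, Matrix.mul_apply, Fintype.sum_sum_type]
      simp only [Finset.univ_unique, PUnit.default_eq_unit, Finset.sum_singleton,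
        Matrix.fromBlocks_apply₁₁, Matrix.fromBlocks_apply₂₁, Matrix.zero_apply, mul_zero, add_zero]
      funext i
      change g.val (Sum.inl ()) (Sum.inl ()) i * (q i)⁻¹.val = _
      rw [show g.val (Sum.inl ()) (Sum.inl ()) i = _ from h1 i, mul_assoc, Units.mul_inv, mul_one]
      rfl
    · have hinv : ((lev q')⁻¹).val = Matrix.fromBlocks q'⁻¹.val 0 0 (q'.val)ᴴ := rfl
      rw [Units.val_mul, hinv, Matrix.mul_apply, Fintype.sum_sum_type]
      simp only [Finset.univ_unique, PUnit.default_eq_unit, Finset.sum_singleton,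
        Matrix.fromBlocks_apply₁₁, Matrix.fromBlocks_apply₂₁, Matrix.zero_apply, mul_zero, add_zero]
      funext i
      change g.val (Sum.inr ()) (Sum.inl ()) i * (q i)⁻¹.val = _
      rw [show g.val (Sum.inr ()) (Sum.inl ()) i = _ from h2 i, mul_assoc, Units.mul_inv, mul_one]
      rfl
  · rw [map_mul, map_inv, embU_lev, inv_mul_cancel_right]

/-- **reduction to the Levi subgroup**, type `D`, `m ≥ 2` -/
theorem redD2 (hN : ∀ i, N i ≠ 0) (Q : ∀ i, QAlg (N i) (R i) (Λ i))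
    (hQ : ∀ i x, star x = (Q i).conj x) (m : ℕ) (hm : 2 ≤ m)
    (g : (Matrix (Fin m ⊕ Fin m) (Fin m ⊕ Fin m) (∀ i, Λ i))ˣ)
    (hg : g ∈ UG (-1) (Fin m) (∀ i, Λ i)) :
    ∃ (φ : Fin 2 ↪ Fin m), ∃ e ∈ EU (-1) (Fin m) (∀ i, Λ i),
      ∃ A : (Matrix (Fin 2) (Fin 2) (∀ i, Λ i))ˣ, g = e * lev (embL φ A) := by
  obtain ⟨k, rfl⟩ : ∃ k, m = k + 2 := ⟨m - 2, by omega⟩
  have hn : 2 ≤ Fintype.card (Fin (k + 2)) := by simp
  obtain ⟨φ, e, he, e', he', A, g', hg', h⟩ := redD hN Q hQ k g hg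
  rw [EUL_eqD] at he he'
  obtain ⟨q, e'', he'', h2⟩ := redD_one2 hN Q hQ hn (φ 1) g' hg'
  have h3 : embL (pt (φ 1)) q = embL φ (embL (pt 1) q) := by
    rw [embL_embL]; rfl
  refine ⟨φ, e * (lev (embL φ A) * (e' * e'') * (lev (embL φ A))⁻¹),
    mul_mem he (BWC.lev_conj_mem _ (mul_mem he' he'')), A * embL (pt 1) q, ?_⟩
  rw [h, h2, h3, map_mul, map_mul]
  group

theorem lev_SL_mem2 (hN : ∀ i, N i ≠ 0)
    (Q : ∀ i, QAlg (N i) (R i) (Λ i)) (hQ : ∀ i x, star x = (Q i).conj x) {n : Type*} [DecidableEq n] [Fintype n]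
    (φ : Fin 2 ↪ n) (A : (Matrix (Fin 2) (Fin 2) (∀ i, Λ i))ˣ)
    (hA : ∀ i, comp i A ∈ SL1 (N i) (Fin 2) (Λ i)) :
    lev (embL φ A) ∈ EU (-1) n (∀ i, Λ i) := by
  rw [← embU_lev]
  exact embU_mem_EU φ (lev_SL_two hN Q hQ A hA)

theorem lev_dg_mem2 (hN : ∀ i, N i ≠ 0)
    (Q : ∀ i, QAlg (N i) (R i) (Λ i)) (hQ : ∀ i x, star x = (Q i).conj x) {n : Type*}
    [DecidableEq n] [Fintype n] (hn : 2 ≤ Fintype.card n) (φ : Fin 2 ↪ n) (v w : ∀ i, R i)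
    (h : v * w = 1) :
    lev (embL φ (dg (Λ := Λ) v w h)) ∈ EU (-1) n (∀ i, Λ i) := by
  let q : (Matrix Unit Unit (∀ i, Λ i))ˣ :=
    ⟨cst (cen v), cst (cen w), by rw [cst_mul, ← cen_mul, h, cen_one, cst_one],
      by rw [cst_mul, ← cen_mul, mul_comm, h, cen_one, cst_one]⟩
  have h1 : dg (Λ := Λ) v w h = embL (pt (0 : Fin 2)) q := by
    ext1
    change _ = Pool.Agent.Helper24.BWR.emb (pt (0 : Fin 2)) q.val
    rw [Pool.Agent.Helper24.BWR.emb_apply]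
    change !![cen v, 0; 0, 1] = _
    ext a b
    fin_cases a <;> fin_cases b <;>
      simp [Pool.Agent.Helper24.BWR.pm, Pool.Agent.Helper24.BWR.qm, Matrix.mul_apply, q, cst]
  rw [h1, embL_embL, ← embU_lev]
  refine sl_claim2 hN Q hQ hn (φ 0) (lev q) (lev_mem_UG q) v 0 rfl ?_
  change (0 : ∀ i, Λ i) = cen (0 : ∀ i, R i)
  funext i
  exact (map_zero _).symm

/-- `lev A` is elementary if the reduced norm of `A` is a square of a unit -/
theorem lev_sq_mem2 (hN : ∀ i, N i ≠ 0)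
    (Q : ∀ i, QAlg (N i) (R i) (Λ i)) (hQ : ∀ i x, star x = (Q i).conj x) {n : Type*}
    [DecidableEq n] [Fintype n] (hn : 2 ≤ Fintype.card n) (φ : Fin 2 ↪ n)
    (A : (Matrix (Fin 2) (Fin 2) (∀ i, Λ i))ˣ) (v w : ∀ i, R i) (h : v * w = 1)
    (hA : ∀ i, nrd2 (Q i) (comp i A).val = v i ^ 2) : lev (embL φ A) ∈ EU (-1) n (∀ i, Λ i) := by
  have h1 := lev_dg_mem2 hN Q hQ hn φ v w h
  have h2 : lev (embL φ ((dg (Λ := Λ) v w h)⁻¹ * A)) ∈ EU (-1) n (∀ i, Λ i) := by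
    refine lev_SL_mem2 hN Q hQ φ _ fun i => mem_SL1_of_nrd2 (Q i) _ ?_
    have e : (dg (Λ := Λ) v w h)⁻¹ = dg (Λ := Λ) w v (by rw [mul_comm]; exact h) := by
      ext1; rfl
    rw [map_mul, Units.val_mul, nrd2_mul (hN i), e, nrd2_dg, hA]
    have := congrFun h i
    change v i * w i = 1 at this
    rw [← mul_pow, mul_comm, this, one_pow]
  have h3 : embL φ A = embL φ (dg (Λ := Λ) v w h) * embL φ ((dg (Λ := Λ) v w h)⁻¹ * A) := by
    rw [← map_mul, mul_inv_cancel_left]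
  rw [h3, map_mul]
  exact mul_mem h1 h2

end Fam

section Spin

open BWC.SN
open VD (comp_mem_isom mem_isom_of_comp GF_bounded pow_le_sup)

variable {ι : Type*} {N : ι → ℕ} {R Λ : ι → Type} [∀ i, CommRing (R i)]
  [∀ i, IsLocalization.Away (N i : ℤ) (R i)] [∀ i, Ring (Λ i)] [∀ i, StarRing (Λ i)]
  [∀ i, Algebra (R i) (Λ i)] [∀ i, Module.Free (R i) (Λ i)] [∀ i, Module.Finite (R i) (Λ i)]
  [∀ i, NoZeroDivisors (Λ i)] {r : Type*} [DecidableEq r] [Fintype r]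

/-- isometries of a family are elementary times an element of the Levi subgroup -/
theorem fam_decomp2 (hN : ∀ i, N i ≠ 0) (Q : ∀ i, QAlg (N i) (R i) (Λ i))
    (hQ : ∀ i x, star x = (Q i).conj x) (m : ℕ) (hm : 2 ≤ m) {A D D' : ∀ i, Matrix r r (Λ i)}
    (hD : ∀ i, D i = A i + (-1 : ℤ) • (A i)ᴴ) (hDD : ∀ i, D i * D' i = 1)
    (hDD' : ∀ i, D' i * D i = 1)
    (g : (Matrix ((Fin m ⊕ Fin m) ⊕ r) ((Fin m ⊕ Fin m) ⊕ r) (∀ i, Λ i))ˣ)
    (hg : g ∈ isom (JG (-1) (Fin m) (VD.famM D))) :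
    ∃ φ : Fin 2 ↪ Fin m, ∃ e ∈ EG (-1) (Fin m) (VD.famM D),
      ∃ A' : (Matrix (Fin 2) (Fin 2) (∀ i, Λ i))ˣ, g = e * embH r (lev (embL φ A')) := by
  have hε : (-1 : ℤ) * (-1) = 1 := by norm_num
  have hn : 2 ≤ Fintype.card (Fin m) := by simpa using hm
  have hD1A : VD.famM D = VD.famM A + (-1 : ℤ) • (VD.famM A)ᴴ := by
    ext a b i
    exact congrFun (congrFun (hD i) a) b
  have hD1D : VD.famM D * VD.famM D' = 1 := by
    ext a b i
    rw [Matrix.mul_apply, Finset.sum_apply]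
    refine Eq.trans ?_ (Eq.trans (congrFun (congrFun (hDD i) a) b) ?_)
    · rw [Matrix.mul_apply]; rfl
    · rw [Matrix.one_apply, Matrix.one_apply]
      split_ifs <;> rfl
  have hD1D' : VD.famM D' * VD.famM D = 1 := by
    ext a b i
    rw [Matrix.mul_apply, Finset.sum_apply]
    refine Eq.trans ?_ (Eq.trans (congrFun (congrFun (hDD' i) a) b) ?_)
    · rw [Matrix.mul_apply]; rfl
    · rw [Matrix.one_apply, Matrix.one_apply]
      split_ifs <;> rfl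
  generalize VD.famM D = D1 at hg hD1A hD1D hD1D' ⊢
  have hR : Reach (-1) (Fin m) D1 := fun a c x w z t h =>
    reachGD (N := N) (R := R) (Λ := Λ) hn hN Q hQ hD1A a c x w z t h
  obtain ⟨e0, he0, g0, hg0, h0⟩ := remove_V hε hD1A hD1D hD1D' hR g hg
  obtain ⟨φ, e, he, A', hgA⟩ := redD2 (N := N) (R := R) (Λ := Λ) hN Q hQ m hm g0 hg0
  refine ⟨φ, e0⁻¹ * embH r e, mul_mem (inv_mem he0) (embH_mem_EG hε he), A', ?_⟩
  have : g = e0⁻¹ * embH r g0 := by rw [← h0]; group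
  rw [this, hgA, map_mul, mul_assoc]

/-- **the elementary group over a product of algebras is the product of the elementary groups** -/
theorem mem_EG_of_theta2 (hN : ∀ i, N i ≠ 0) (Q : ∀ i, QAlg (N i) (R i) (Λ i))
    (hQ : ∀ i x, star x = (Q i).conj x) (m : ℕ) (hm : 2 ≤ m) {A D D' : ∀ i, Matrix r r (Λ i)}
    (hD : ∀ i, D i = A i + (-1 : ℤ) • (A i)ᴴ) (hDD : ∀ i, D i * D' i = 1)
    (hDD' : ∀ i, D' i * D i = 1)
    (g : (Matrix ((Fin m ⊕ Fin m) ⊕ r) ((Fin m ⊕ Fin m) ⊕ r) (∀ i, Λ i))ˣ)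
    (hg : ∀ i, comp i g ∈ isom (JG (-1) (Fin m) (D i)))
    (h : ∀ i (p : ℕ) [Fact p.Prime] (ρ : Λ i →+* Matrix (Fin 2) (Fin 2) (ZMod p))
      (hρ : ∀ x, ρ (Star.star x) = (ρ x).adjugate), p ≠ 2 → ¬ p ∣ N i →
      theta hρ (JG (-1) (Fin m) (D i)) 1 ⟨comp i g, hg i⟩ = 1) :
    g ∈ EG (-1) (Fin m) (VD.famM D) := by
  have hε : (-1 : ℤ) * (-1) = 1 := by norm_num
  have hn : 2 ≤ Fintype.card (Fin m) := by simpa using hm
  obtain ⟨φ, e, he, A', hgA⟩ := fam_decomp2 hN Q hQ m hm hD hDD hDD' g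
    (mem_isom_of_comp D hg)
  have hsq : ∀ i, ∃ v w : R i, v * w = 1 ∧ nrd2 (Q i) (comp i A').val = v ^ 2 := by
    intro i
    have hi : comp i g = comp i e * embH r (lev (embL φ (comp i A'))) := by
      rw [← comp_embH_lev', ← map_mul, ← hgA]
    have he' : comp i e ∈ EG (-1) (Fin m) (D i) := comp_mem_EG D i he
    have he'' := EG_le (-1) (Fin m) (D i) he'
    have hl : embH r (lev (embL φ (comp i A'))) ∈ isom (JG (-1) (Fin m) (D i)) :=
      embH_memG (lev_mem_UG _)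
    refine nrd_sq (hN i) (Q i) (hQ i) (D i) φ (comp i A') hl ?_
    intro p _ ρ hρ hp2 hpN
    have h1 := h i p ρ hρ hp2 hpN
    have h2 : (⟨comp i g, hg i⟩ : isom (JG (-1) (Fin m) (D i))) =
        ⟨comp i e, he''⟩ * ⟨embH r (lev (embL φ (comp i A'))), hl⟩ := Subtype.ext hi
    rw [h2, map_mul, theta_EG hp2 hρ (D i) 1 ⟨comp i e, he''⟩ he', one_mul] at h1
    exact h1
  choose v w hvw hv using hsq
  have h3 := lev_sq_mem2 hN Q hQ hn φ A' v w (funext hvw) hv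
  rw [hgA]
  exact mul_mem he (embH_mem_EG hε h3)

end Spin

end BWF
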