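import Pool.Agent.BWE.Norm
import Pool.Agent.BWD.ReachG

/-!
# Two hyperbolic planes, type `D`: the unitary groups of the planes normalise the elementary group
(port of `BWE/Norm.lean`)
-/

set_option autoImplicit false

namespace BWF

open Matrix
open BW hiding star
open BWC

section Norm

variable {P : Type*} [Ring P] [StarRing P]

/-- the relations between the entries of an isometry of one plane -/
theorem entries {g : (Matrix (Unit ⊕ Unit) (Unit ⊕ Unit) P)ˣ} (hg : g ∈ UG (-1) Unit P) :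
    star (g.val (Sum.inl ()) (Sum.inl ())) * g.val (Sum.inr ()) (Sum.inl ()) =
      star (g.val (Sum.inr ()) (Sum.inl ())) * g.val (Sum.inl ()) (Sum.inl ()) ∧
    star (g.val (Sum.inl ()) (Sum.inl ())) * g.val (Sum.inr ()) (Sum.inr ()) -
      star (g.val (Sum.inr ()) (Sum.inl ())) * g.val (Sum.inl ()) (Sum.inr ()) = 1 ∧
    star (g.val (Sum.inr ()) (Sum.inr ())) * g.val (Sum.inl ()) (Sum.inl ()) -
      star (g.val (Sum.inl ()) (Sum.inr ())) * g.val (Sum.inr ()) (Sum.inl ()) = 1 ∧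
    star (g.val (Sum.inl ()) (Sum.inr ())) * g.val (Sum.inr ()) (Sum.inr ()) =
      star (g.val (Sum.inr ()) (Sum.inr ())) * g.val (Sum.inl ()) (Sum.inr ()) := by
  have hb : g.val = Matrix.fromBlocks g.val.toBlocks₁₁ g.val.toBlocks₁₂ g.val.toBlocks₂₁
    g.val.toBlocks₂₂ := (Matrix.fromBlocks_toBlocks _).symm
  obtain ⟨h1, h2, h3, h4⟩ := (mem_UG_blocks hb).1 hg
  refine ⟨?_, ?_, ?_, ?_⟩
  · have e := congrFun (congrFun h1 ()) ()
    have e' : star (g.val (Sum.inl ()) (Sum.inl ())) * g.val (Sum.inr ()) (Sum.inl ()) +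
      -(star (g.val (Sum.inr ()) (Sum.inl ())) * g.val (Sum.inl ()) (Sum.inl ())) = 0 := by
      simpa [Matrix.mul_apply, Matrix.toBlocks₁₁, Matrix.toBlocks₂₁] using e
    rwa [← sub_eq_add_neg, sub_eq_zero] at e'
  · have e := congrFun (congrFun h2 ()) ()
    rw [sub_eq_add_neg]
    simpa [Matrix.mul_apply, Matrix.toBlocks₁₁, Matrix.toBlocks₂₁, Matrix.toBlocks₁₂,
      Matrix.toBlocks₂₂] using e
  · have e := congrFun (congrFun h3 ()) ()
    have e' : star (g.val (Sum.inl ()) (Sum.inr ())) * g.val (Sum.inr ()) (Sum.inl ()) +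
      -(star (g.val (Sum.inr ()) (Sum.inr ())) * g.val (Sum.inl ()) (Sum.inl ())) = -1 := by
      simpa [Matrix.mul_apply, Matrix.toBlocks₁₁, Matrix.toBlocks₂₁, Matrix.toBlocks₁₂,
        Matrix.toBlocks₂₂] using e
    rw [← neg_inj, ← e']
    abel
  · have e := congrFun (congrFun h4 ()) ()
    have e' : star (g.val (Sum.inl ()) (Sum.inr ())) * g.val (Sum.inr ()) (Sum.inr ()) +
      -(star (g.val (Sum.inr ()) (Sum.inr ())) * g.val (Sum.inl ()) (Sum.inr ())) = 0 := by
      simpa [Matrix.mul_apply, Matrix.toBlocks₁₂, Matrix.toBlocks₂₂] using e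
    rwa [← sub_eq_add_neg, sub_eq_zero] at e'

/-- the common form of the two products with `up` -/
theorem prod_up (g : (Matrix (Unit ⊕ Unit) (Unit ⊕ Unit) P)ˣ) (p q t : P) :
    (lev (el (1 : Fin 2) 0 (by decide) p) * up !![0, star q; q, t] *
      embU (pt (0 : Fin 2)) g).val = Matrix.fromBlocks
      !![g.val (Sum.inl ()) (Sum.inl ()), 0;
        p * g.val (Sum.inl ()) (Sum.inl ()) + q * g.val (Sum.inr ()) (Sum.inl ()), 1]
      !![g.val (Sum.inl ()) (Sum.inr ()), star q;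
        p * g.val (Sum.inl ()) (Sum.inr ()) + q * g.val (Sum.inr ()) (Sum.inr ()), t + p * star q]
      !![g.val (Sum.inr ()) (Sum.inl ()), 0; 0, 0]
      !![g.val (Sum.inr ()) (Sum.inr ()), -star p; 0, 1] := by
  rw [Units.val_mul, Units.val_mul, BWE.lev_el10_val, up_val, BWE.pt_val,
    Matrix.fromBlocks_multiply, Matrix.fromBlocks_multiply]
  congr 1 <;> ext i j <;> fin_cases i <;> fin_cases j <;> simp
  abel

theorem prod_lo (g : (Matrix (Unit ⊕ Unit) (Unit ⊕ Unit) P)ˣ) (p q t : P) :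
    (lev (el (0 : Fin 2) 1 (by decide) p) * lo !![0, q; star q, t] *
      embU (pt (0 : Fin 2)) g).val = Matrix.fromBlocks
      !![g.val (Sum.inl ()) (Sum.inl ()), p; 0, 1]
      !![g.val (Sum.inl ()) (Sum.inr ()), 0; 0, 0]
      !![g.val (Sum.inr ()) (Sum.inl ()), q;
        star q * g.val (Sum.inl ()) (Sum.inl ()) - star p * g.val (Sum.inr ()) (Sum.inl ()),
        t - star p * q]
      !![g.val (Sum.inr ()) (Sum.inr ()), 0;
        star q * g.val (Sum.inl ()) (Sum.inr ()) - star p * g.val (Sum.inr ()) (Sum.inr ()),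
        1] := by
  rw [Units.val_mul, Units.val_mul, BWE.lev_el01_val, lo_val, BWE.pt_val,
    Matrix.fromBlocks_multiply, Matrix.fromBlocks_multiply]
  congr 1 <;> ext i j <;> fin_cases i <;> fin_cases j <;> simp
  all_goals abel

/-- conjugation of `lev (el 1 0 x)` -/
theorem conj_el10 {g : (Matrix (Unit ⊕ Unit) (Unit ⊕ Unit) P)ˣ} (hg : g ∈ UG (-1) Unit P) (x : P) :
    ∃ p q t, star t = t ∧ embU (pt (0 : Fin 2)) g * lev (el (1 : Fin 2) 0 (by decide) x) =
      lev (el (1 : Fin 2) 0 (by decide) p) * up !![0, star q; q, t] *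
      embU (pt (0 : Fin 2)) g := by
  obtain ⟨h1, h2, h3, h4⟩ := entries hg
  set a := g.val (Sum.inl ()) (Sum.inl ()) with ha
  set b := g.val (Sum.inl ()) (Sum.inr ()) with hb
  set c := g.val (Sum.inr ()) (Sum.inl ()) with hc
  set d := g.val (Sum.inr ()) (Sum.inr ()) with hd
  refine ⟨x * star d, -(x * star b), x * star d * (b * star x), ?_, ?_⟩
  · simp only [star_mul, star_star]
    calc x * star b * (d * star x) = x * (star b * d) * star x := by simp only [mul_assoc]
      _ = _ := by rw [h4]; simp only [mul_assoc]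
  · ext1
    rw [prod_up, Units.val_mul, BWE.pt_val, BWE.lev_el10_val, Matrix.fromBlocks_multiply]
    have e1 : x * star d * a + -(x * star b) * c = x := by
      rw [neg_mul, mul_assoc, mul_assoc, ← sub_eq_add_neg, ← mul_sub, h3, mul_one]
    have e2 : x * star d * b + -(x * star b) * d = 0 := by
      rw [neg_mul, mul_assoc, mul_assoc, ← sub_eq_add_neg, ← mul_sub, h4, sub_self, mul_zero]
    rw [← ha, ← hb, ← hc, ← hd, e1, e2]
    congr 1 <;> ext i j <;> fin_cases i <;> fin_cases j <;> simp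

/-- conjugation of `up` -/
theorem conj_up {g : (Matrix (Unit ⊕ Unit) (Unit ⊕ Unit) P)ˣ} (hg : g ∈ UG (-1) Unit P) (x : P) :
    ∃ p q t, star t = t ∧ embU (pt (0 : Fin 2)) g * up !![0, star x; x, 0] =
      lev (el (1 : Fin 2) 0 (by decide) p) * up !![0, star q; q, t] *
      embU (pt (0 : Fin 2)) g := by
  obtain ⟨h1, h2, h3, h4⟩ := entries hg
  set a := g.val (Sum.inl ()) (Sum.inl ()) with ha
  set b := g.val (Sum.inl ()) (Sum.inr ()) with hb
  set c := g.val (Sum.inr ()) (Sum.inl ()) with hc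
  set d := g.val (Sum.inr ()) (Sum.inr ()) with hd
  refine ⟨-(x * star c), x * star a, x * star c * (a * star x), ?_, ?_⟩
  · simp only [star_mul, star_star]
    calc x * star a * (c * star x) = x * (star a * c) * star x := by simp only [mul_assoc]
      _ = _ := by rw [h1]; simp only [mul_assoc]
  · ext1
    rw [prod_up, Units.val_mul, BWE.pt_val, up_val, Matrix.fromBlocks_multiply]
    have e1 : -(x * star c) * a + x * star a * c = 0 := by
      rw [neg_mul, mul_assoc, mul_assoc, neg_add_eq_sub, ← mul_sub, h1, sub_self, mul_zero]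
    have e2 : -(x * star c) * b + x * star a * d = x := by
      rw [neg_mul, mul_assoc, mul_assoc, neg_add_eq_sub, ← mul_sub, h2, mul_one]
    rw [← ha, ← hb, ← hc, ← hd, e1, e2]
    congr 1 <;> ext i j <;> fin_cases i <;> fin_cases j <;> simp

/-- conjugation of `lev (el 0 1 x)` -/
theorem conj_el01 {g : (Matrix (Unit ⊕ Unit) (Unit ⊕ Unit) P)ˣ} (hg : g ∈ UG (-1) Unit P) (x : P) :
    ∃ p q t, star t = t ∧ embU (pt (0 : Fin 2)) g * lev (el (0 : Fin 2) 1 (by decide) x) =
      lev (el (0 : Fin 2) 1 (by decide) p) * lo !![0, q; star q, t] *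
      embU (pt (0 : Fin 2)) g := by
  obtain ⟨h1, h2, h3, h4⟩ := entries hg
  set a := g.val (Sum.inl ()) (Sum.inl ()) with ha
  set b := g.val (Sum.inl ()) (Sum.inr ()) with hb
  set c := g.val (Sum.inr ()) (Sum.inl ()) with hc
  set d := g.val (Sum.inr ()) (Sum.inr ()) with hd
  refine ⟨a * x, c * x, star (a * x) * (c * x), ?_, ?_⟩
  · simp only [star_mul, star_star]
    calc star x * star c * (a * x) = star x * (star c * a) * x := by simp only [mul_assoc]
      _ = _ := by rw [← h1]; simp only [mul_assoc]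
  · ext1
    rw [prod_lo, Units.val_mul, BWE.pt_val, BWE.lev_el01_val, Matrix.fromBlocks_multiply]
    have e1 : star (c * x) * a - star (a * x) * c = 0 := by
      rw [star_mul, star_mul, mul_assoc, mul_assoc, ← mul_sub, h1, sub_self, mul_zero]
    have e2 : star (c * x) * b - star (a * x) * d = -star x := by
      rw [star_mul, star_mul, mul_assoc, mul_assoc, ← mul_sub, ← neg_sub, h2, mul_neg, mul_one]
    rw [← ha, ← hb, ← hc, ← hd, e1, e2]
    congr 1 <;> ext i j <;> fin_cases i <;> fin_cases j <;> simp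

/-- conjugation of `lo` -/
theorem conj_lo {g : (Matrix (Unit ⊕ Unit) (Unit ⊕ Unit) P)ˣ} (hg : g ∈ UG (-1) Unit P) (x : P) :
    ∃ p q t, star t = t ∧ embU (pt (0 : Fin 2)) g * lo !![0, x; star x, 0] =
      lev (el (0 : Fin 2) 1 (by decide) p) * lo !![0, q; star q, t] *
      embU (pt (0 : Fin 2)) g := by
  obtain ⟨h1, h2, h3, h4⟩ := entries hg
  set a := g.val (Sum.inl ()) (Sum.inl ()) with ha
  set b := g.val (Sum.inl ()) (Sum.inr ()) with hb
  set c := g.val (Sum.inr ()) (Sum.inl ()) with hc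
  set d := g.val (Sum.inr ()) (Sum.inr ()) with hd
  refine ⟨b * x, d * x, star (b * x) * (d * x), ?_, ?_⟩
  · simp only [star_mul, star_star]
    calc star x * star d * (b * x) = star x * (star d * b) * x := by simp only [mul_assoc]
      _ = _ := by rw [← h4]; simp only [mul_assoc]
  · ext1
    rw [prod_lo, Units.val_mul, BWE.pt_val, lo_val, Matrix.fromBlocks_multiply]
    have e1 : star (d * x) * a - star (b * x) * c = star x := by
      rw [star_mul, star_mul, mul_assoc, mul_assoc, ← mul_sub, h3, mul_one]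
    have e2 : star (d * x) * b - star (b * x) * d = 0 := by
      rw [star_mul, star_mul, mul_assoc, mul_assoc, ← mul_sub, h4, sub_self, mul_zero]
    rw [← ha, ← hb, ← hc, ← hd, e1, e2]
    congr 1 <;> ext i j <;> fin_cases i <;> fin_cases j <;> simp

/-- the long root element of plane `0` from the others -/
theorem up_zero (s : P) (hs : star s = s) :
    up !![s, 0; 0, 0] = lev (el (0 : Fin 2) 1 (by decide) 1) * up !![0, 0; 0, s] *
      lev (el (0 : Fin 2) 1 (by decide) (-1)) * up !![0, star (-s); -s, 0] *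
      up !![0, 0; 0, -s] := by
  ext1
  simp only [Units.val_mul]
  rw [BWE.lev_el01_val, BWE.lev_el01_val, up_val, up_val, up_val, up_val,
    Matrix.fromBlocks_multiply, Matrix.fromBlocks_multiply, Matrix.fromBlocks_multiply,
    Matrix.fromBlocks_multiply]
  simp only [star_neg, star_one, hs, neg_neg]
  congr 1 <;> ext i j <;> fin_cases i <;> fin_cases j <;> simp

theorem lo_zero (s : P) (hs : star s = s) :
    lo !![s, 0; 0, 0] = lev (el (1 : Fin 2) 0 (by decide) (-1)) * lo !![0, 0; 0, s] *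
      lev (el (1 : Fin 2) 0 (by decide) 1) * lo !![0, -s; star (-s), 0] *
      lo !![0, 0; 0, -s] := by
  ext1
  simp only [Units.val_mul]
  rw [BWE.lev_el10_val, BWE.lev_el10_val, lo_val, lo_val, lo_val, lo_val,
    Matrix.fromBlocks_multiply, Matrix.fromBlocks_multiply, Matrix.fromBlocks_multiply,
    Matrix.fromBlocks_multiply]
  simp only [star_neg, star_one, hs, neg_neg]
  congr 1 <;> ext i j <;> fin_cases i <;> fin_cases j <;> simp

theorem Sk_of (s t q : P) (hs : star s = s) (ht : star t = t) :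
    Sk (-1) (!![s, star q; q, t] : Matrix (Fin 2) (Fin 2) P) := by
  unfold Sk
  ext i j
  fin_cases i <;> fin_cases j <;> simp [hs, ht]

theorem Sk_of' (s t q : P) (hs : star s = s) (ht : star t = t) :
    Sk (-1) (!![s, q; star q, t] : Matrix (Fin 2) (Fin 2) P) := by
  unfold Sk
  ext i j
  fin_cases i <;> fin_cases j <;> simp [hs, ht]

theorem Sk_entries {B : Matrix (Fin 2) (Fin 2) P} (hB : Sk (-1) B) : star (B 0 0) = B 0 0 ∧
    star (B 1 1) = B 1 1 ∧ B 0 1 = star (B 1 0) := by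
  have h : Bᴴ = B := by rw [hB, neg_smul, one_smul, neg_neg]
  exact ⟨congrFun (congrFun h 0) 0, congrFun (congrFun h 1) 1, (congrFun (congrFun h 0) 1).symm⟩

/-- the plane unitary group of plane `0` normalises `EU` -/
theorem conj_mem_zero (g : (Matrix (Unit ⊕ Unit) (Unit ⊕ Unit) P)ˣ) (hg : g ∈ UG (-1) Unit P)
    (e : (Matrix (Fin 2 ⊕ Fin 2) (Fin 2 ⊕ Fin 2) P)ˣ) (he : e ∈ EU (-1) (Fin 2) P) :
    embU (pt (0 : Fin 2)) g * e * (embU (pt (0 : Fin 2)) g)⁻¹ ∈ EU (-1) (Fin 2) P := by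
  have hL : ∀ (i j : Fin 2) (h : i ≠ j) (x : P), lev (el i j h x) ∈ EU (-1) (Fin 2) P :=
    fun i j h x => lev_el_memD x i j h
  set G := embU (pt (0 : Fin 2)) g with hG
  let T : Subgroup (Matrix (Fin 2 ⊕ Fin 2) (Fin 2 ⊕ Fin 2) P)ˣ :=
    (EU (-1) (Fin 2) P).comap (MulAut.conj G).toMonoidHom
  have mT : ∀ x, x ∈ T ↔ G * x * G⁻¹ ∈ EU (-1) (Fin 2) P := fun x => Iff.rfl
  have z0 : star (0 : P) = 0 := star_zero P
  have key : ∀ {x y : (Matrix (Fin 2 ⊕ Fin 2) (Fin 2 ⊕ Fin 2) P)ˣ}, G * x = y * G →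
      y ∈ EU (-1) (Fin 2) P → x ∈ T := by
    intro x y h hy
    rw [mT, h, mul_inv_cancel_right]
    exact hy
  have t10 : ∀ x, lev (el (1 : Fin 2) 0 (by decide) x) ∈ T := by
    intro x
    obtain ⟨p, q, t, ht, h⟩ := conj_el10 hg x
    exact key h (mul_mem (hL _ _ _ _) (up_mem (Sk_of _ _ _ z0 ht)))
  have t01 : ∀ x, lev (el (0 : Fin 2) 1 (by decide) x) ∈ T := by
    intro x
    obtain ⟨p, q, t, ht, h⟩ := conj_el01 hg x
    exact key h (mul_mem (hL _ _ _ _) (lo_mem (Sk_of' _ _ _ z0 ht)))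
  have tu : ∀ x, up !![0, star x; x, 0] ∈ T := by
    intro x
    obtain ⟨p, q, t, ht, h⟩ := conj_up hg x
    exact key h (mul_mem (hL _ _ _ _) (up_mem (Sk_of _ _ _ z0 ht)))
  have tl : ∀ x, lo !![0, x; star x, 0] ∈ T := by
    intro x
    obtain ⟨p, q, t, ht, h⟩ := conj_lo hg x
    exact key h (mul_mem (hL _ _ _ _) (lo_mem (Sk_of' _ _ _ z0 ht)))
  have tu1 : ∀ s, star s = s → up !![0, 0; 0, s] ∈ T := by
    intro s hs
    refine key (BWE.comm_up g s) (up_mem ?_)
    have := Sk_of 0 s 0 z0 hs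
    rwa [z0] at this
  have tl1 : ∀ s, star s = s → lo !![0, 0; 0, s] ∈ T := by
    intro s hs
    refine key (BWE.comm_lo g s) (lo_mem ?_)
    have := Sk_of 0 s 0 z0 hs
    rwa [z0] at this
  have tu0 : ∀ s, star s = s → up !![s, 0; 0, 0] ∈ T := by
    intro s hs
    rw [up_zero s hs]
    exact mul_mem (mul_mem (mul_mem (mul_mem (t01 _) (tu1 _ hs)) (t01 _)) (tu _))
      (tu1 _ (by rw [star_neg, hs]))
  have tl0 : ∀ s, star s = s → lo !![s, 0; 0, 0] ∈ T := by
    intro s hs
    rw [lo_zero s hs]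
    exact mul_mem (mul_mem (mul_mem (mul_mem (t10 _) (tl1 _ hs)) (t10 _)) (tl _))
      (tl1 _ (by rw [star_neg, hs]))
  have hT : EU (-1) (Fin 2) P ≤ T := by
    refine sup_le ?_ ?_
    · rintro _ ⟨B, hB, rfl⟩
      obtain ⟨h1, h2, h3⟩ := Sk_entries hB
      have : up B = up !![B 0 0, 0; 0, 0] * up !![0, star (B 1 0); B 1 0, 0] *
          up !![0, 0; 0, B 1 1] := by
        rw [BWE.up_mul_up, BWE.up_mul_up]
        congr 1
        ext i j
        fin_cases i <;> fin_cases j <;> simp [h3]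
      rw [this]
      exact mul_mem (mul_mem (tu0 _ h1) (tu _)) (tu1 _ h2)
    · rintro _ ⟨B, hB, rfl⟩
      obtain ⟨h1, h2, h3⟩ := Sk_entries hB
      have h4 : star (B 0 1) = B 1 0 := by rw [h3, star_star]
      have : lo B = lo !![B 0 0, 0; 0, 0] * lo !![0, B 0 1; star (B 0 1), 0] *
          lo !![0, 0; 0, B 1 1] := by
        rw [BWE.lo_mul_lo, BWE.lo_mul_lo]
        congr 1
        ext i j
        fin_cases i <;> fin_cases j <;> simp [h4]
      rw [this]
      exact mul_mem (mul_mem (tl0 _ h1) (tl _)) (tl1 _ h2)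
  exact hT he

omit [StarRing P] in
theorem pt_one_eq (g : (Matrix (Unit ⊕ Unit) (Unit ⊕ Unit) P)ˣ) :
    embU (pt (1 : Fin 2)) g = embU BWE.sw (embU (pt (0 : Fin 2)) g) := by
  rw [embU_embU]
  rfl

omit [StarRing P] in
theorem sw_sw_embU (e : (Matrix (Fin 2 ⊕ Fin 2) (Fin 2 ⊕ Fin 2) P)ˣ) :
    embU BWE.sw (embU BWE.sw e) = e := by
  rw [embU_embU, embU_eq_self _ (fun x => BWE.sw_sw x)]

/-- plane unitary groups normalise `EU`, `ε = -1`, two planes -/
theorem conj_mem (x0 : Fin 2) (g : (Matrix (Unit ⊕ Unit) (Unit ⊕ Unit) P)ˣ)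
    (hg : g ∈ UG (-1) Unit P)
    (e : (Matrix (Fin 2 ⊕ Fin 2) (Fin 2 ⊕ Fin 2) P)ˣ) (he : e ∈ EU (-1) (Fin 2) P) :
    embU (pt x0) g * e * (embU (pt x0) g)⁻¹ ∈ EU (-1) (Fin 2) P := by
  have h01 : x0 = 0 ∨ x0 = 1 := by fin_cases x0 <;> simp
  rcases h01 with rfl | rfl
  · exact conj_mem_zero g hg e he
  · have h1 := embU_mem_EU BWE.sw (conj_mem_zero g hg (embU BWE.sw e) (embU_mem_EU BWE.sw he))
    rw [map_mul, map_mul, map_inv, sw_sw_embU, ← pt_one_eq] at h1
    exact h1

/-- the planes can be exchanged -/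
theorem pt_one_iff (g : (Matrix (Unit ⊕ Unit) (Unit ⊕ Unit) P)ˣ) :
    embU (pt (1 : Fin 2)) g ∈ EU (-1) (Fin 2) P ↔ embU (pt (0 : Fin 2)) g ∈ EU (-1) (Fin 2) P := by
  constructor
  · intro h
    have h1 := embU_mem_EU BWE.sw h
    rwa [pt_one_eq, sw_sw_embU] at h1
  · intro h
    rw [pt_one_eq]
    exact embU_mem_EU BWE.sw h

variable (P) in
/-- the `A ∈ GL₂` with `lev A ∈ EU` -/
def H4 : Subgroup (Matrix (Fin 2) (Fin 2) P)ˣ := (EU (-1) (Fin 2) P).comap lev

theorem mem_H4 {A : (Matrix (Fin 2) (Fin 2) P)ˣ} : A ∈ H4 P ↔ lev A ∈ EU (-1) (Fin 2) P := Iff.rfl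

theorem el_mem_H4 (i j : Fin 2) (h : i ≠ j) (x : P) : el i j h x ∈ H4 P := lev_el_memD x i j h

/-- the Levi subgroup normalises `EU`, any number of planes -/
theorem lev_conj_mem {n : Type*} [DecidableEq n] [Fintype n] (A : (Matrix n n P)ˣ)
    (e : (Matrix (n ⊕ n) (n ⊕ n) P)ˣ) (he : e ∈ EU (-1) n P) :
    lev A * e * (lev A)⁻¹ ∈ EU (-1) n P := by
  let T : Subgroup (Matrix (n ⊕ n) (n ⊕ n) P)ˣ :=
    (EU (-1) n P).comap (MulAut.conj (lev A)).toMonoidHom
  have hinv : ((lev A)⁻¹).val = Matrix.fromBlocks A⁻¹.val 0 0 (A.val)ᴴ := rfl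
  have h1 : A.val * A⁻¹.val = 1 := by rw [← Units.val_mul, mul_inv_cancel, Units.val_one]
  have h2 : (A⁻¹.val)ᴴ * A.valᴴ = 1 := by
    rw [← Matrix.conjTranspose_mul, h1, Matrix.conjTranspose_one]
  have hT : EU (-1) n P ≤ T := by
    refine sup_le ?_ ?_
    · rintro _ ⟨B, hB, rfl⟩
      change lev A * up B * (lev A)⁻¹ ∈ EU (-1) n P
      have : lev A * up B * (lev A)⁻¹ = up (A.val * B * A.valᴴ) := by
        ext1
        rw [Units.val_mul, Units.val_mul, hinv, lev_val, up_val, up_val,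
          Matrix.fromBlocks_multiply, Matrix.fromBlocks_multiply]
        simp [h1, h2]
      rw [this]
      refine up_mem ?_
      unfold Sk at *
      rw [Matrix.conjTranspose_mul, Matrix.conjTranspose_mul, hB,
        Matrix.conjTranspose_conjTranspose]
      simp [Matrix.mul_assoc]
    · rintro _ ⟨B, hB, rfl⟩
      change lev A * lo B * (lev A)⁻¹ ∈ EU (-1) n P
      have : lev A * lo B * (lev A)⁻¹ = lo ((A⁻¹.val)ᴴ * B * A⁻¹.val) := by
        ext1
        rw [Units.val_mul, Units.val_mul, hinv, lev_val, lo_val, lo_val,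
          Matrix.fromBlocks_multiply, Matrix.fromBlocks_multiply]
        simp [h1, h2]
      rw [this]
      refine lo_mem ?_
      unfold Sk at *
      rw [Matrix.conjTranspose_mul, Matrix.conjTranspose_mul, hB,
        Matrix.conjTranspose_conjTranspose]
      simp [Matrix.mul_assoc]
  exact hT he

instance : (H4 P).Normal where
  conj_mem A hA B := by
    rw [mem_H4, map_mul, map_mul, map_inv]
    exact lev_conj_mem B _ hA

end Norm

end BWF
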