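import Pool.Agent.BWC.Prim
import Pool.Agent.BW.APLat

/-!
# Primitive vectors in affine sublattices of `Λ`
-/

set_option linter.unusedSectionVars false

namespace BWF

open BW BWC

variable {N : ℕ} {R Λ : Type*} [CommRing R] [IsLocalization.Away (N : ℤ) R] [Ring Λ] [Algebra R Λ]
  [Module.Free R Λ] [Module.Finite R Λ]

/-- linear independence of two elements -/
def Ind (R : Type*) {Λ : Type*} [CommRing R] [Ring Λ] [Algebra R Λ] (v w : Λ) : Prop :=
  ∀ α β : R, α • v + β • w = 0 → α = 0 ∧ β = 0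

/-- divisibility by `p` -/
def Dv (p : ℕ) {Λ : Type*} [Ring Λ] (v : Λ) : Prop := ∃ y, v = (p : Λ) * y

theorem Dv.add {p : ℕ} {v w : Λ} (hv : Dv p v) (hw : Dv p w) : Dv p (v + w) := by
  obtain ⟨y, rfl⟩ := hv
  obtain ⟨z, rfl⟩ := hw
  exact ⟨y + z, by rw [mul_add]⟩

theorem Dv.sub {p : ℕ} {v w : Λ} (hv : Dv p v) (hw : Dv p w) : Dv p (v - w) := by
  obtain ⟨y, rfl⟩ := hv
  obtain ⟨z, rfl⟩ := hw
  exact ⟨y - z, by rw [mul_sub]⟩

theorem Dv.mul_left {p : ℕ} {v : Λ} (hv : Dv p v) (x : Λ) : Dv p (x * v) := by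
  obtain ⟨y, rfl⟩ := hv
  exact ⟨x * y, by rw [← mul_assoc, ← mul_assoc, (Nat.cast_commute p x).eq]⟩

theorem Dv.mul_right {p : ℕ} {v : Λ} (hv : Dv p v) (x : Λ) : Dv p (v * x) := by
  obtain ⟨y, rfl⟩ := hv
  exact ⟨y * x, by rw [mul_assoc]⟩

theorem Dv.smul {p : ℕ} {v : Λ} (hv : Dv p v) (c : R) : Dv p (c • v) := by
  rw [Algebra.smul_def]
  exact hv.mul_left _

theorem Dv.of_dvd {p m : ℕ} (h : p ∣ m) (v : Λ) : Dv p ((m : Λ) * v) := by
  obtain ⟨k, rfl⟩ := h
  exact ⟨(k : Λ) * v, by rw [Nat.cast_mul, mul_assoc]⟩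

/-- cancellation of a factor prime to `p` -/
theorem Dv.of_coprime {p m : ℕ} (h : m.Coprime p) {v : Λ} (hv : Dv p ((m : Λ) * v)) : Dv p v := by
  obtain ⟨y, hy⟩ := hv
  have h1 : IsCoprime (m : ℤ) (p : ℤ) := Nat.isCoprime_iff_coprime.2 h
  obtain ⟨a, b, hab⟩ := h1
  refine ⟨(a : Λ) * y + (b : Λ) * v, ?_⟩
  have h2 : ((a : Λ) * (m : Λ) + (b : Λ) * (p : Λ)) = 1 := by
    have := congrArg (Int.cast : ℤ → Λ) hab
    push_cast at this
    exact this
  calc v = ((a : Λ) * (m : Λ) + (b : Λ) * (p : Λ)) * v := by rw [h2, one_mul]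
    _ = (a : Λ) * ((m : Λ) * v) + (b : Λ) * ((p : Λ) * v) := by noncomm_ring
    _ = (a : Λ) * ((p : Λ) * y) + (b : Λ) * ((p : Λ) * v) := by rw [hy]
    _ = _ := by
      rw [mul_add, ← mul_assoc, ← mul_assoc, ← mul_assoc, ← mul_assoc,
        (Nat.cast_commute p (a : Λ)).eq, (Nat.cast_commute p (b : Λ)).eq]

section

variable (hN : N ≠ 0) (Q : QAlg N R Λ)

include hN in
/-- not divisible by any prime = primitive -/
theorem prim_of_not_dv (v : Λ) (h : ∀ p : ℕ, p.Prime → ¬ p ∣ N → ¬ Dv p v) :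
    ∃ c, Q.T (v * c) = 1 := by
  have hD := Loc.isDomain N R hN
  have hP := Loc.isPrincipalIdealRing N R
  obtain ⟨q, hq1, hq⟩ := Nat.exists_infinite_primes (N + 1)
  have hqN : ¬ q ∣ N := fun hd => by
    have := Nat.le_of_dvd (Nat.pos_of_ne_zero hN) hd
    omega
  have hv : v ≠ 0 := by
    rintro rfl
    exact h q hq hqN ⟨0, by rw [mul_zero]⟩
  obtain ⟨c, v0, w, hc, hcv, hw⟩ := Q.content_ne v hv
  obtain ⟨u, m, hm, hmN, hum⟩ := Loc.exists_unit_mul hN hc
  have hm1 : m = 1 := by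
    by_contra hne
    obtain ⟨p, hp, hpm⟩ := Nat.exists_prime_and_dvd hne
    refine h p hp (fun hpN => hp.one_lt.ne' (Nat.eq_one_of_dvd_coprimes hmN hpm hpN)) ?_
    have h1 : v = (m : Λ) * ((u : R) • v0) := by
      rw [hcv, hum, BW.AP.natCast_smul (R := R), smul_smul, mul_comm]
    rw [h1]
    exact Dv.of_dvd hpm _
  rw [hm1, Nat.cast_one, mul_one] at hum
  refine ⟨((u⁻¹ : Rˣ) : R) • w, ?_⟩
  rw [hcv, hum, smul_mul_smul_comm, map_smul, hw, smul_eq_mul, mul_one, Units.mul_inv]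

/-- primitive vectors are not divisible by primes -/
theorem not_dv_of_prim {v c : Λ} (h : Q.T (v * c) = 1) {p : ℕ} (hp : p.Prime) (hpN : ¬ p ∣ N) :
    ¬ Dv p v := by
  rintro ⟨y, rfl⟩
  rw [mul_assoc, BW.AP.natCast_smul (R := R), map_smul, smul_eq_mul] at h
  exact Loc.not_isUnit hp hpN (R := R) (IsUnit.of_mul_eq_one _ h)

include hN in
theorem Ind.ne_zero {v w : Λ} (h : Ind R v w) : v ≠ 0 := by
  have hD := Loc.isDomain N R hN
  rintro rfl
  exact one_ne_zero (h 1 0 (by simp)).1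

include hN in
/-- one of two independent vectors is independent of a given one -/
theorem Ind.or {l₁ l₂ v : Λ} (h : Ind R l₁ l₂) (hv : v ≠ 0) : Ind R v l₁ ∨ Ind R v l₂ := by
  have hD := Loc.isDomain N R hN
  by_contra hcon
  rw [not_or] at hcon
  obtain ⟨h1, h2⟩ := hcon
  unfold Ind at h1 h2
  push Not at h1 h2
  obtain ⟨α₁, β₁, e1, n1⟩ := h1
  obtain ⟨α₂, β₂, e2, n2⟩ := h2
  have hβ : ∀ {α β : R} {l : Λ}, α • v + β • l = 0 → (α = 0 → β ≠ 0) → β ≠ 0 := by
    intro α β l e n hβ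
    rw [hβ, zero_smul, add_zero] at e
    have : α = 0 := by
      by_contra hα
      exact hv (BWC.smul_right_cancel hN hα (by rw [e, smul_zero]))
    exact n this hβ
  have hβ₁ := hβ e1 n1
  have hβ₂ := hβ e2 n2
  have e3 : (α₂ * β₁) • l₁ + (-(α₁ * β₂)) • l₂ = 0 := by
    have : (α₂ * β₁) • l₁ + (-(α₁ * β₂)) • l₂ = α₂ • (α₁ • v + β₁ • l₁) -
        α₁ • (α₂ • v + β₂ • l₂) := by module
    rw [this, e1, e2, smul_zero, smul_zero, sub_zero]
  obtain ⟨h3, -⟩ := h _ _ e3
  have hα₂ : α₂ = 0 := (mul_eq_zero.1 h3).resolve_right hβ₁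
  rw [hα₂, zero_smul, zero_add] at e2
  have hl : l₂ = 0 := BWC.smul_right_cancel hN hβ₂ (by rw [e2, smul_zero])
  have := (h 0 1 (by rw [hl]; simp)).2
  exact one_ne_zero this

include hN in
/-- a vector of `L` which is not divisible by finitely many primes -/
theorem exists_not_dv (L : Submodule R Λ) (P : Finset ℕ) (hP : ∀ p ∈ P, p.Prime)
    (h : ∀ p ∈ P, ∃ l ∈ L, ¬ Dv p l) : ∃ l ∈ L, ∀ p ∈ P, ¬ Dv p l := by
  induction P using Finset.induction_on with
  | empty => exact ⟨0, L.zero_mem, fun p hp => absurd hp (Finset.notMem_empty p)⟩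
  | insert q P hq ih =>
    obtain ⟨l, hl, hlP⟩ := ih (fun p hp => hP p (Finset.mem_insert_of_mem hp))
      (fun p hp => h p (Finset.mem_insert_of_mem hp))
    by_cases hlq : Dv q l
    · obtain ⟨d, hd, hdq⟩ := h q (Finset.mem_insert_self q P)
      refine ⟨l + ((∏ p ∈ P, p : ℕ) : Λ) * d, L.add_mem hl ?_, fun p hp => ?_⟩
      · rw [BW.AP.natCast_smul (R := R)]
        exact L.smul_mem _ hd
      · rcases Finset.mem_insert.1 hp with rfl | hp
        · intro h1
          apply hdq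
          have h2 := h1.sub hlq
          rw [add_sub_cancel_left] at h2
          refine Dv.of_coprime ?_ h2
          refine Nat.Coprime.prod_left fun q hq' => ?_
          rw [Nat.coprime_primes (hP q (Finset.mem_insert_of_mem hq'))
            (hP p (Finset.mem_insert_self p P))]
          rintro rfl
          exact hq hq'
        · intro h1
          apply hlP p hp
          have h2 : Dv p (((∏ p ∈ P, p : ℕ) : Λ) * d) :=
            Dv.of_dvd (Finset.dvd_prod_of_mem (fun p => p) hp) _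
          have h3 := h1.sub h2
          rwa [add_sub_cancel_right] at h3
    · refine ⟨l, hl, fun p hp => ?_⟩
      rcases Finset.mem_insert.1 hp with rfl | hp
      · exact hlq
      · exact hlP p hp

include hN in
/-- **primitive vectors in an affine sublattice of rank at least two** -/
theorem exists_prim (L : Submodule R Λ) (v0 l₁ l₂ : Λ) (hl₁ : l₁ ∈ L) (hl₂ : l₂ ∈ L)
    (hind : Ind R l₁ l₂)
    (hloc : ∀ p : ℕ, p.Prime → ¬ p ∣ N → ∃ l ∈ L, ¬ Dv p (v0 + l)) :
    ∃ l ∈ L, ∃ c, Q.T ((v0 + l) * c) = 1 := by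
  have hD := Loc.isDomain N R hN
  have hP := Loc.isPrincipalIdealRing N R
  obtain ⟨q, hq1, hq⟩ := Nat.exists_infinite_primes (N + 1)
  have hqN : ¬ q ∣ N := fun hd => by
    have := Nat.le_of_dvd (Nat.pos_of_ne_zero hN) hd
    omega
  obtain ⟨l', hl', hq'⟩ := hloc q hq hqN
  set v := v0 + l' with hv
  have hv0 : v ≠ 0 := by
    intro h0
    apply hq'
    rw [h0]
    exact ⟨0, by rw [mul_zero]⟩
  obtain ⟨c, v1, w1, hc, hcv, hw1⟩ := Q.content_ne v hv0
  obtain ⟨u, m, hm, hmN, hum⟩ := Loc.exists_unit_mul hN hc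
  -- the primes which divide `v`
  have hdm : ∀ p : ℕ, p.Prime → ¬ p ∣ N → Dv p v → p ∈ m.primeFactors := by
    intro p hp hpN hd
    refine Nat.mem_primeFactors.2 ⟨hp, ?_, hm.ne'⟩
    by_contra hpm
    have h1 : v = (m : Λ) * ((u : R) • v1) := by
      rw [hcv, hum, BW.AP.natCast_smul (R := R), smul_smul, mul_comm]
    rw [h1] at hd
    have h2 := Dv.of_coprime ((Nat.Prime.coprime_iff_not_dvd hp).2 hpm).symm hd
    have h3 : Dv p v1 := by
      have := h2.smul ((u⁻¹ : Rˣ) : R)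
      rwa [smul_smul, Units.inv_mul, one_smul] at this
    exact not_dv_of_prim Q hw1 hp hpN h3
  obtain ⟨l, hl, hlP⟩ := exists_not_dv (Λ := Λ) hN L m.primeFactors
    (fun p hp => Nat.prime_of_mem_primeFactors hp) (fun p hp => by
      have hp' := Nat.prime_of_mem_primeFactors hp
      have hpN : ¬ p ∣ N := fun hpN => hp'.one_lt.ne'
        (Nat.eq_one_of_dvd_coprimes hmN (Nat.dvd_of_mem_primeFactors hp) hpN)
      obtain ⟨d, hd, hdp⟩ := hloc p hp' hpN
      refine ⟨d - l', L.sub_mem hd hl', fun h1 => hdp ?_⟩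
      have h2 : Dv p v := by
        rw [hcv, hum, mul_smul, Algebra.smul_def (u : R), ← BW.AP.natCast_smul]
        exact (Dv.of_dvd (Nat.dvd_of_mem_primeFactors hp) _).mul_left _
      have h3 := h2.add h1
      rwa [hv, add_add_sub_cancel] at h3)
  -- make it independent of `v`
  obtain ⟨k, hk, hkP, hkv⟩ : ∃ k ∈ L, (∀ p ∈ m.primeFactors, ¬ Dv p k) ∧ Ind R v k := by
    by_cases h1 : Ind R v l
    · exact ⟨l, hl, hlP, h1⟩
    · obtain ⟨l₃, hl₃, h3⟩ : ∃ l₃ ∈ L, Ind R v l₃ := by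
        rcases hind.or hN hv0 with h | h
        · exact ⟨l₁, hl₁, h⟩
        · exact ⟨l₂, hl₂, h⟩
      refine ⟨l + (m : Λ) * l₃, L.add_mem hl ?_, fun p hp hd => ?_, ?_⟩
      · rw [BW.AP.natCast_smul (R := R)]
        exact L.smul_mem _ hl₃
      · apply hlP p hp
        have := hd.sub (Dv.of_dvd (Nat.dvd_of_mem_primeFactors hp) l₃)
        rwa [add_sub_cancel_right] at this
      · unfold Ind at h1
        push Not at h1
        obtain ⟨α', β', e1, n1⟩ := h1
        have hβ' : β' ≠ 0 := by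
          intro hβ
          rw [hβ, zero_smul, add_zero] at e1
          have : α' = 0 := by
            by_contra hα
            exact hv0 (BWC.smul_right_cancel hN hα (by rw [e1, smul_zero]))
          exact n1 this hβ
        intro α β e2
        have hm0 : (m : R) ≠ 0 := by
          have := Loc.charZero N R hN
          exact Nat.cast_ne_zero.2 hm.ne'
        have e3 : (β' * α - β * α') • v + (β' * β * (m : R)) • l₃ = 0 := by
          rw [BW.AP.natCast_smul (R := R)] at e2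
          have : (β' * α - β * α') • v + (β' * β * (m : R)) • l₃ =
              β' • (α • v + β • (l + (m : R) • l₃)) - β • (α' • v + β' • l) := by module
          rw [this, e1, e2, smul_zero, smul_zero, sub_zero]
        obtain ⟨-, h4⟩ := h3 _ _ e3
        have hβ : β = 0 := by
          rcases mul_eq_zero.1 h4 with h5 | h5
          · exact (mul_eq_zero.1 h5).resolve_left hβ'
          · exact absurd h5 hm0
        refine ⟨?_, hβ⟩
        rw [hβ, zero_smul, add_zero] at e2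
        by_contra hα
        exact hv0 (BWC.smul_right_cancel hN hα (by rw [e2, smul_zero]))
  obtain ⟨t0, d, -, ht⟩ := prim_line hN Q v k (fun p hp hpN hc => by
    exact hkP p (hdm p hp hpN hc.1) hc.2) hkv
  obtain ⟨e, he⟩ := ht 0
  refine ⟨l' + (t0 + d * 0) • k, L.add_mem hl' (L.smul_mem _ hk), e, ?_⟩
  rw [← add_assoc]
  exact he

end

end BWF
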