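import Pool.Agent.BWF.Prim
import Pool.Agent.BW.Nrd
import Pool.Agent.BW.NrdK
import Pool.Agent.BW.TMem
import Pool.Agent.BW.Struct
import Pool.Agent.BWE.Phi

/-!
# Section 1 without the multiplication lemma (domains)

Every `2 x 2` matrix of reduced norm one is a product of elementary matrices and ONE matrix of
type `T`.
-/

set_option linter.unusedSectionVars false

namespace BWF

open Matrix
open BW hiding star
open BWC
open BWE (same_data_el)

section Comp

variable {N : ℕ} {R Λ : Type*} [CommRing R] [IsLocalization.Away (N : ℤ) R] [Ring Λ] [Algebra R Λ]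
  [Module.Free R Λ] [Module.Finite R Λ] (hN : N ≠ 0) (Q : QAlg N R Λ)

/-- an element of trace one -/
theorem exists_T_one : ∃ c, Q.T c = 1 := by
  obtain ⟨f, hf⟩ := Q.one_prim
  obtain ⟨c, hc⟩ := Q.unimod f
  exact ⟨c, by rw [← one_mul c, ← hc, hf]⟩

/-- right invertible elements are primitive -/
theorem prim_of_mul_eq_one {a u : Λ} (h : a * u = 1) : ∃ c, Q.T (a * c) = 1 := by
  obtain ⟨c, hc⟩ := exists_T_one Q
  exact ⟨u * c, by rw [← mul_assoc, h, one_mul, hc]⟩

include hN Q in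
/-- `1` and some `y` are independent -/
theorem exists_ind_one : ∃ y : Λ, Ind R (1 : Λ) y := by
  have hD := Loc.isDomain N R hN
  have hP := Loc.isPrincipalIdealRing N R
  obtain ⟨u, v, huv⟩ := Q.exists_comm hN
  refine ⟨u, fun α β h => ?_⟩
  have h1 : β • (u * v - v * u) = 0 := by
    have e : β • u = -(α • (1 : Λ)) := eq_neg_of_add_eq_zero_right h
    rw [smul_sub, ← smul_mul_assoc, ← mul_smul_comm, e]
    simp
  have hβ : β = 0 := by
    by_contra hβ
    have : u * v - v * u = 0 := BWC.smul_right_cancel hN hβ (by rw [h1, smul_zero])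
    rw [this, QAlg.n_zero] at huv
    exact huv rfl
  refine ⟨?_, hβ⟩
  rw [hβ, zero_smul, add_zero] at h
  by_contra hα
  have : (1 : Λ) = 0 := BWC.smul_right_cancel hN hα (by rw [h, smul_zero])
  have h2 := congrArg Q.n this
  rw [QAlg.n_one, QAlg.n_zero] at h2
  exact one_ne_zero h2

variable [NoZeroDivisors Λ]

include hN Q in
theorem ind_mul_left {a v w : Λ} (ha : a ≠ 0) (h : Ind R v w) : Ind R (a * v) (a * w) := by
  intro α β e
  apply h
  have e1 : a * (α • v + β • w) = 0 := by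
    rw [mul_add, mul_smul_comm, mul_smul_comm, e]
  exact (mul_eq_zero.1 e1).resolve_left ha

include hN in
theorem n_ne {a : Λ} (ha : a ≠ 0) : Q.n a ≠ 0 := by
  intro h
  have h1 := Q.mul_conj a
  rw [h, map_zero] at h1
  rcases mul_eq_zero.1 h1 with h2 | h2
  · exact ha h2
  · apply ha
    rw [← Q.conj_conj a, h2, Q.conj_zero]

include hN in
/-- step 0: the first entry can be made primitive -/
theorem step0 (a b u v : Λ) (h : a * u + b * v = 1) : ∃ x c, Q.T ((a + b * x) * c) = 1 := by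
  by_cases hb : b = 0
  · rw [hb, zero_mul, add_zero] at h
    obtain ⟨c, hc⟩ := prim_of_mul_eq_one Q h
    exact ⟨0, c, by rw [mul_zero, add_zero, hc]⟩
  · obtain ⟨y, hy⟩ := exists_ind_one hN Q
    have h1 := ind_mul_left hN Q hb hy
    obtain ⟨l, hl, c, hc⟩ := exists_prim hN Q (LinearMap.range (LinearMap.mulLeft R b)) a (b * 1)
      (b * y) ⟨1, rfl⟩ ⟨y, rfl⟩ h1 (fun p hp hpN => by
        by_contra hcon
        push Not at hcon
        have e0 : Dv p (a + 0) := hcon 0 (Submodule.zero_mem _)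
        have e1 : Dv p (a + b * 1) := hcon _ ⟨1, rfl⟩
        rw [add_zero] at e0
        rw [mul_one] at e1
        have e2 := e1.sub e0
        rw [add_sub_cancel_left] at e2
        have e3 := (e0.mul_right u).add (e2.mul_right v)
        rw [h] at e3
        obtain ⟨z, hz⟩ := e3
        exact one_not_dvd Q hp hpN z hz)
    obtain ⟨x, rfl⟩ := hl
    exact ⟨x, c, hc⟩

/-- the kernel of the form `x ↦ T(x c)` -/
def ker (Q : QAlg N R Λ) (c : Λ) : Submodule R Λ :=
  LinearMap.ker (Q.T ∘ₗ LinearMap.mulRight R c)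

theorem mem_ker {c x : Λ} : x ∈ ker Q c ↔ Q.T (x * c) = 0 := by
  unfold ker
  rw [LinearMap.mem_ker]
  rfl

include hN in
/-- two independent elements of the kernel -/
theorem exists_ind_ker (c : Λ) : ∃ l₁ ∈ ker Q c, ∃ l₂ ∈ ker Q c, Ind R l₁ l₂ := by
  have hD := Loc.isDomain N R hN
  have hP := Loc.isPrincipalIdealRing N R
  have hC := Loc.charZero N R hN
  by_cases hc : c = 0
  · obtain ⟨y, hy⟩ := exists_ind_one hN Q
    exact ⟨1, (mem_ker Q).2 (by rw [hc, mul_zero, map_zero]), y,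
      (mem_ker Q).2 (by rw [hc, mul_zero, map_zero]), hy⟩
  · obtain ⟨u, v, huv⟩ := Q.exists_comm hN
    -- pure elements
    have hpure : ∀ s : Λ, Q.T s = 0 → Q.conj c * s ∈ ker Q c := by
      intro s hs
      rw [mem_ker, Q.T_comm, ← mul_assoc, Q.mul_conj, ← Algebra.smul_def, map_smul, hs, smul_zero]
    have hT : ∀ x : Λ, Q.T ((2 : R) • x - algebraMap R Λ (Q.T x)) = 0 := by
      intro x
      rw [map_sub, map_smul, Q.T_algebraMap, smul_eq_mul, sub_self]
    set u0 := (2 : R) • u - algebraMap R Λ (Q.T u) with hu0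
    set v0 := (2 : R) • v - algebraMap R Λ (Q.T v) with hv0
    have hcomm : u0 * v0 - v0 * u0 = (4 : R) • (u * v - v * u) := by
      have e1 : ∀ (r : R) (x : Λ), algebraMap R Λ r * x = x * algebraMap R Λ r :=
        fun r x => Algebra.commutes r x
      rw [hu0, hv0]
      simp only [mul_sub, sub_mul, smul_mul_assoc, mul_smul_comm]
      rw [e1 (Q.T u) v, e1 (Q.T v) u, e1 (Q.T u) (algebraMap R Λ (Q.T v))]
      module
    have hne : u0 * v0 - v0 * u0 ≠ 0 := by
      rw [hcomm]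
      intro h0
      have h4 : (4 : R) ≠ 0 := by norm_num
      have := BWC.smul_right_cancel hN h4 (show (4 : R) • (u * v - v * u) = (4 : R) • 0 by
        rw [h0, smul_zero])
      rw [this, QAlg.n_zero] at huv
      exact huv rfl
    have hcc : Q.conj c ≠ 0 := by
      intro h0
      apply hc
      rw [← Q.conj_conj c, h0, Q.conj_zero]
    refine ⟨_, hpure u0 (hT u), _, hpure v0 (hT v), ind_mul_left hN Q hcc ?_⟩
    intro α β e
    have hβ : β = 0 := by
      by_contra hβ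
      apply hne
      refine BWC.smul_right_cancel hN hβ ?_
      have e1 : β • v0 = -(α • u0) := eq_neg_of_add_eq_zero_right e
      rw [smul_zero, smul_sub, ← mul_smul_comm, ← smul_mul_assoc, e1]
      simp
    refine ⟨?_, hβ⟩
    by_contra hα
    apply hne
    refine BWC.smul_right_cancel hN hα ?_
    have e1 : α • u0 = -(β • v0) := eq_neg_of_add_eq_zero_left e
    rw [smul_zero, smul_sub, ← smul_mul_assoc, ← mul_smul_comm, e1]
    simp

include hN in
/-- the hyperplane `T(x c) = 0` is not killed by left multiplication with `β` modulo `p` -/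
theorem exists_mul_not_dv (β c : Λ) {p : ℕ} (hp : p.Prime) (hpN : ¬ p ∣ N) (hβ : ¬ Dv p β) :
    ∃ x ∈ ker Q c, ¬ Dv p (β * x) := by
  have hD := Loc.isDomain N R hN
  have hP := Loc.isPrincipalIdealRing N R
  have := Fact.mk hp
  by_contra hcon
  push Not at hcon
  by_cases hc : c = 0
  · apply hβ
    have := hcon 1 ((mem_ker Q).2 (by rw [hc, mul_zero, map_zero]))
    rwa [mul_one] at this
  obtain ⟨κ, c', w, hκ, rfl, hw⟩ := Q.content_ne c hc
  have hw' : Q.T (w * c') = 1 := by rw [Q.T_comm]; exact hw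
  have h1 : ∀ z : Λ, Dv p (β * (z - Q.T (z * c') • w)) := by
    intro z
    refine hcon _ ((mem_ker Q).2 ?_)
    have e : Q.T ((z - Q.T (z * c') • w) * c') = 0 := by
      rw [sub_mul, map_sub, smul_mul_assoc, map_smul, hw', smul_eq_mul, mul_one, sub_self]
    rw [mul_smul_comm, map_smul, e, smul_zero]
  obtain ⟨ρ, hρ, hker, hdet⟩ := Q.fibre p hp hpN
  have hρ0 : ∀ x : Λ, Dv p x → ρ x = 0 := by
    rintro x ⟨y, rfl⟩
    rw [map_mul, map_natCast, BW.AP.natCast_mat, zero_mul]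
  have hB : ρ β ≠ 0 := fun h => hβ (hker _ h)
  obtain ⟨i, j, hij⟩ : ∃ i j, ρ β i j ≠ 0 := by
    by_contra h
    push Not at h
    exact hB (Matrix.ext h)
  have h2 : ∀ M : Matrix (Fin 2) (Fin 2) (ZMod p), ∃ l : ZMod p,
      ρ β * M = l • (ρ β * ρ w) := by
    intro M
    obtain ⟨z, rfl⟩ := hρ M
    have h3 := hρ0 _ (h1 z)
    rw [map_mul, map_sub, mul_sub, sub_eq_zero, BW.S.rho_smul hp hpN, mul_smul_comm] at h3
    exact ⟨_, h3⟩
  obtain ⟨l0, h3⟩ := h2 (Matrix.single j 0 1)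
  obtain ⟨l1, h4⟩ := h2 (Matrix.single j 1 1)
  have e00 := congrFun (congrFun h3 i) 0
  have e01 := congrFun (congrFun h3 i) 1
  have e11 := congrFun (congrFun h4 i) 1
  rw [Matrix.smul_apply, Matrix.mul_single_apply_same, mul_one] at e00
  rw [Matrix.smul_apply, Matrix.mul_single_apply_of_ne _ _ _ _ _ (by decide)] at e01
  rw [Matrix.smul_apply, Matrix.mul_single_apply_same, mul_one] at e11
  have hl0 : l0 ≠ 0 := by
    rintro rfl
    rw [zero_smul] at e00
    exact hij e00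
  have h5 : (ρ β * ρ w) i 1 = 0 := by
    rcases smul_eq_zero.1 e01.symm with h | h
    · exact absurd h hl0
    · exact h
  rw [h5, smul_zero] at e11
  exact hij e11

include hN in
/-- step 1: equal traces, the first entry stays primitive -/
theorem step1 (a b bs as u v : Λ) (h : b * as = a * bs) (h1 : a * u + b * v = 1)
    (hprim : ∃ c, Q.T (a * c) = 1) :
    ∃ x y c : Λ, Q.T (a + (b + a * y) * x) = Q.T (as + x * (bs + y * as)) ∧
      Q.T ((a + (b + a * y) * x) * c) = 1 := by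
  have hD := Loc.isDomain N R hN
  have hP := Loc.isPrincipalIdealRing N R
  have ha : a ≠ 0 := by
    rintro rfl
    obtain ⟨c, hc⟩ := hprim
    rw [zero_mul, map_zero] at hc
    exact zero_ne_one hc
  obtain ⟨x, y, hxy, -⟩ := Q.trace_strong hN a b bs as h hprim (n_ne hN Q ha)
  set β := b + a * y with hβ
  have hrow : a * (u - y * v) + β * v = 1 := by
    rw [hβ, ← h1]; noncomm_ring
  by_cases hβ0 : β = 0
  · rw [hβ0, zero_mul, add_zero] at hrow
    obtain ⟨c, hc⟩ := prim_of_mul_eq_one Q hrow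
    refine ⟨x, y, c, hxy, ?_⟩
    rw [← hβ, hβ0, zero_mul, add_zero, hc]
  · set κ := bs + y * as with hκ
    obtain ⟨l₁, hl₁, l₂, hl₂, hl⟩ := exists_ind_ker hN Q (β - κ)
    obtain ⟨l, hl, c, hc⟩ := exists_prim hN Q ((ker Q (β - κ)).map (LinearMap.mulLeft R β))
      (a + β * x) (β * l₁) (β * l₂) ⟨l₁, hl₁, rfl⟩ ⟨l₂, hl₂, rfl⟩ (ind_mul_left hN Q hβ0 hl)
      (fun p hp hpN => by
        by_contra hcon
        push Not at hcon
        have e0 : Dv p (a + β * x) := by
          have := hcon 0 (Submodule.zero_mem _)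
          rwa [add_zero] at this
        by_cases hβp : Dv p β
        · have e1 := e0.sub (hβp.mul_right x)
          rw [add_sub_cancel_right] at e1
          have e3 := (e1.mul_right (u - y * v)).add (hβp.mul_right v)
          rw [hrow] at e3
          obtain ⟨z, hz⟩ := e3
          exact one_not_dvd Q hp hpN z hz
        · obtain ⟨z, hz, hzp⟩ := exists_mul_not_dv hN Q β (β - κ) hp hpN hβp
          apply hzp
          have e1 := (hcon (β * z) ⟨z, hz, rfl⟩).sub e0
          rwa [add_sub_cancel_left] at e1)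
    obtain ⟨l', hl', rfl⟩ := hl
    refine ⟨x + l', y, c, ?_, ?_⟩
    · rw [← hβ, ← hκ]
      have e1 : Q.T (β * l') - Q.T (l' * κ) = 0 := by
        rw [← (mem_ker Q).1 hl', mul_sub, map_sub, Q.T_comm β]
      have e2 : Q.T (a + β * (x + l')) - Q.T (as + (x + l') * κ) =
          (Q.T (a + β * x) - Q.T (as + x * κ)) + (Q.T (β * l') - Q.T (l' * κ)) := by
        rw [mul_add β x l', add_mul x l' κ]
        simp only [map_add]
        ring
      rw [← sub_eq_zero, e2, e1, hxy, sub_self, add_zero]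
    · have e1 : a + β * (x + l') = a + β * x + (LinearMap.mulLeft R β) l' := by
        rw [LinearMap.mulLeft_apply, mul_add, add_assoc]
      rw [e1]
      exact hc

include hN in
/-- `a*` is primitive -/
theorem prim_star (a b bs as e d : Λ) (h : b * as = a * bs) (h1 : e * bs + d * as = 1)
    (hprim : ∃ c, Q.T (a * c) = 1) : ∃ c, Q.T (as * c) = 1 := by
  refine prim_of_not_dv hN Q _ fun p hp hpN hd => ?_
  obtain ⟨c, hc⟩ := hprim
  have hD := Loc.isDomain N R hN
  have hC := Loc.charZero N R hN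
  -- `bs` is a unit modulo `p`
  apply not_dv_of_prim Q hc hp hpN
  have e1 : Dv p (a * bs) := by rw [← h]; exact hd.mul_left _
  have e2 := hd.mul_left d
  obtain ⟨y, hy⟩ := e2
  -- `e bs = 1 - p y`
  have e3 : e * bs = 1 - (p : Λ) * y := by rw [← hy, ← h1]; abel
  -- norms
  have e4 : ∃ r : R, Q.n e * Q.n bs = 1 + (p : R) * r := by
    refine ⟨-Q.T y + (p : R) * Q.n y, ?_⟩
    have : (1 : Λ) - (p : Λ) * y = 1 + (-(p : R)) • y := by
      rw [neg_smul, ← BW.AP.natCast_smul (R := R), sub_eq_add_neg]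
    rw [← Q.n_mul, e3, this, Choice.n_one_add Q hN]
    ring
  obtain ⟨r, hr⟩ := e4
  -- `a n(bs) n(e)` is divisible by `p`
  have e5 : Dv p ((Q.n e * Q.n bs) • a) := by
    have e6 := (e1.mul_right (Q.conj bs)).smul (Q.n e)
    rw [mul_assoc, Q.mul_conj, ← Algebra.commutes, ← Algebra.smul_def, smul_smul] at e6
    exact e6
  rw [hr, add_smul, one_smul] at e5
  have e7 : Dv p (((p : R) * r) • a) := ⟨r • a, by rw [mul_smul, BW.AP.natCast_smul (R := R)]⟩
  have e8 := e5.sub e7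
  rwa [add_sub_cancel_right] at e8

include hN in
/-- step 2: an intertwiner can be made primitive -/
theorem step2 (a as g u v : Λ) (h : a * g = g * as) (hT : Q.T a = Q.T as) (hn : Q.n a = Q.n as)
    (h1 : a * u + g * v = 1) (ha : a ≠ 0) :
    ∃ y c : Λ, a * y = y * as ∧ Q.T ((g + a * y) * c) = 1 := by
  have hD := Loc.isDomain N R hN
  have hP := Loc.isPrincipalIdealRing N R
  have hC := Loc.charZero N R hN
  obtain ⟨y0, g0, w, c, hc, hy0, hg0, hw, hag0⟩ := Q.g_step hN a as g u v h hT hn h1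
  have hg0' : g0 ≠ 0 := by
    rintro rfl
    rw [zero_mul, map_zero] at hw
    exact zero_ne_one hw
  -- the intertwiners
  let M : Submodule R Λ := LinearMap.ker (LinearMap.mulLeft R a - LinearMap.mulRight R as)
  have hM : ∀ y, y ∈ M ↔ a * y = y * as := by
    intro y
    change (LinearMap.mulLeft R a - LinearMap.mulRight R as) y = 0 ↔ _
    rw [LinearMap.sub_apply, LinearMap.mulLeft_apply, LinearMap.mulRight_apply, sub_eq_zero]
  obtain ⟨l₁, hl₁, l₂, hl₂, hind⟩ : ∃ l₁ ∈ M, ∃ l₂ ∈ M, Ind R l₁ l₂ := by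
    by_cases hi : Ind R (1 : Λ) as
    · refine ⟨g0 * 1, by rw [mul_one]; exact (hM _).2 hag0, g0 * as, (hM _).2 ?_,
        ind_mul_left hN Q hg0' hi⟩
      rw [← mul_assoc, hag0]
    · -- `a*` is a scalar
      have hcomm : ∀ z, as * z = z * as := by
        unfold Ind at hi
        push Not at hi
        obtain ⟨α, β, e1, n1⟩ := hi
        have hβ : β ≠ 0 := by
          intro hβ
          rw [hβ, zero_smul, add_zero] at e1
          have : α = 0 := by
            by_contra hα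
            have h2 : (1 : Λ) = 0 := BWC.smul_right_cancel hN hα (by rw [e1, smul_zero])
            have h3 := congrArg Q.n h2
            rw [QAlg.n_one, QAlg.n_zero] at h3
            exact one_ne_zero h3
          exact n1 this hβ
        intro z
        refine BWC.smul_right_cancel hN hβ ?_
        have e2 : β • as = -(α • (1 : Λ)) := eq_neg_of_add_eq_zero_right e1
        rw [← smul_mul_assoc, ← mul_smul_comm, e2]
        simp
      have haas : a = as := by
        have e1 : (a - as) * g0 = 0 := by rw [sub_mul, hag0, hcomm, sub_self]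
        exact sub_eq_zero.1 ((mul_eq_zero.1 e1).resolve_right hg0')
      obtain ⟨y, hy⟩ := exists_ind_one hN Q
      exact ⟨1, (hM _).2 (by rw [haas]; simp), y, (hM _).2 (by rw [haas, hcomm]), hy⟩
  obtain ⟨l, hl, c', hc'⟩ := exists_prim hN Q (M.map (LinearMap.mulLeft R a)) g (a * l₁)
    (a * l₂) ⟨l₁, hl₁, rfl⟩ ⟨l₂, hl₂, rfl⟩ (ind_mul_left hN Q ha hind)
    (fun p hp hpN => by
      by_contra hcon
      push Not at hcon
      have e0 : Dv p g := by
        have := hcon 0 (Submodule.zero_mem _)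
        rwa [add_zero] at this
      have e1 : Dv p (a * g0) := by
        have := (hcon (a * g0) ⟨g0, (hM _).2 hag0, rfl⟩).sub e0
        rwa [add_sub_cancel_left] at this
      -- `a` is a unit modulo `p`
      have e2 := e0.mul_right v
      obtain ⟨y, hy⟩ := e2
      have e3 : a * u = 1 - (p : Λ) * y := by rw [← hy, ← h1]; abel
      have e4 : Q.n a * Q.n u = 1 + (p : R) * (-Q.T y + (p : R) * Q.n y) := by
        have : (1 : Λ) - (p : Λ) * y = 1 + (-(p : R)) • y := by
          rw [neg_smul, ← BW.AP.natCast_smul (R := R), sub_eq_add_neg]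
        rw [← Q.n_mul, e3, this, Choice.n_one_add Q hN]
        ring
      have e5 : Dv p ((Q.n a * Q.n u) • g0) := by
        have e6 := (e1.mul_left (Q.conj a)).smul (Q.n u)
        rw [← mul_assoc, Q.conj_mul_self, ← Algebra.smul_def, smul_smul, mul_comm (Q.n u)] at e6
        exact e6
      rw [e4, add_smul, one_smul] at e5
      have e7 : Dv p (((p : R) * (-Q.T y + (p : R) * Q.n y)) • g0) :=
        ⟨(-Q.T y + (p : R) * Q.n y) • g0, by
          rw [mul_smul, BW.AP.natCast_smul (R := R) p ((-Q.T y + (p : R) * Q.n y) • g0)]⟩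
      have e8 := e5.sub e7
      rw [add_sub_cancel_right] at e8
      exact not_dv_of_prim Q hw hp hpN e8)
  obtain ⟨y, hy, rfl⟩ := hl
  exact ⟨y, c', (hM _).1 hy, hc'⟩

include hN Q in
/-- **one component** -/
theorem comp_main (A : (Matrix (Fin 2) (Fin 2) Λ)ˣ) (hA : A ∈ SL1 N (Fin 2) Λ) :
    ∃ (x₁ y₁ x₂ y₂ z g : Λ) (r : R),
      HasData (A * el 1 0 (by decide) x₁ * el 0 1 (by decide) y₁ * el 1 0 (by decide) x₂ *
        el 0 1 (by decide) y₂ * W * el 0 1 (by decide) z)
        g (algebraMap R Λ r) (algebraMap R Λ r) g := by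
  have hD := Loc.isDomain N R hN
  have hP := Loc.isPrincipalIdealRing N R
  have hC := Loc.charZero N R hN
  have d0 : HasData A (A.val 0 0) (A.val 0 1) (-A⁻¹.val 0 1) (A⁻¹.val 1 1) :=
    ⟨rfl, rfl, by rw [neg_neg], rfl⟩
  -- step 0
  obtain ⟨x₁, c₁, hc₁⟩ := step0 hN Q _ _ _ _ d0.rel.1
  have d1 := d0.mul_el10 x₁
  have m1 : A * el 1 0 (by decide) x₁ ∈ SL1 N (Fin 2) Λ :=
    mul_mem hA (el_mem_SL1 _ _ _ _ _)
  generalize hA1 : A * el 1 0 (by decide) x₁ = A1 at d1 m1
  generalize A.val 0 0 + A.val 0 1 * x₁ = a1 at d1 hc₁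
  generalize A.val 0 1 = b1 at d1
  generalize A⁻¹.val 1 1 + x₁ * -A⁻¹.val 0 1 = as1 at d1
  generalize -A⁻¹.val 0 1 = bs1 at d1
  -- step 1
  obtain ⟨x₂, y₁, c₂, hT2, hc₂⟩ := step1 hN Q a1 b1 bs1 as1 _ _ d1.rel.2 d1.rel.1 ⟨c₁, hc₁⟩
  have d2 := (d1.mul_el01 y₁).mul_el10 x₂
  have m2 : A1 * el 0 1 (by decide) y₁ * el 1 0 (by decide) x₂ ∈ SL1 N (Fin 2) Λ :=
    mul_mem (mul_mem m1 (el_mem_SL1 _ _ _ _ _)) (el_mem_SL1 _ _ _ _ _)
  generalize hA2 : A1 * el 0 1 (by decide) y₁ * el 1 0 (by decide) x₂ = A2 at d2 m2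
  generalize a1 + (b1 + a1 * y₁) * x₂ = a2 at d2 hc₂ hT2
  generalize as1 + x₂ * (bs1 + y₁ * as1) = as2 at d2 hT2
  generalize b1 + a1 * y₁ = b2 at d2
  generalize bs1 + y₁ * as1 = bs2 at d2
  have hn2 : Q.n a2 = Q.n as2 := by
    have := Q.n_eq hN A2 m2
    rwa [d2.h00, d2.h1] at this
  have hcj : Q.conj a2 * b2 = bs2 * Q.conj as2 := by
    have := Q.conj_eq_of_SL1 hN A2 m2
    rw [d2.h00, d2.h01, d2.h0, d2.h1, neg_mul] at this
    exact eq_of_sub_eq_zero (by rw [sub_eq_add_neg]; exact this)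
  obtain ⟨c₃, hc₃⟩ : ∃ c, Q.T (as2 * c) = 1 := by
    obtain ⟨-, ⟨-, r4⟩⟩ := row_col A2
    rw [d2.h0, d2.h1] at r4
    refine prim_star hN Q a2 b2 bs2 as2 (-A2.val 1 0) (A2.val 1 1) d2.rel.2 ?_ ⟨c₂, hc₂⟩
    rw [neg_mul, ← mul_neg]
    exact r4
  have ha2 : a2 ≠ 0 := by
    rintro rfl
    rw [zero_mul, map_zero] at hc₂
    exact zero_ne_one hc₂
  -- step 2
  obtain ⟨k1, k2⟩ := Q.conjugation a2 b2 bs2 as2 c₃ d2.rel.2 hcj hT2 hc₃
  generalize -(b2 * Q.conj c₃ + bs2 * c₃) = y₂ at k1 k2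
  have d3 := d2.mul_el01 y₂
  rw [← k1] at d3
  generalize hg : b2 + a2 * y₂ = g at d3 k1 k2
  obtain ⟨y₃, c₄, hy₃, hc₄⟩ := step2 hN Q a2 as2 g _ _ k2 hT2 hn2 d3.rel.1 ha2
  obtain ⟨τ, z, hz1, hz2⟩ := Q.idealizer' (g + a2 * y₃) a2 as2 c₄ (by
    rw [mul_add, add_mul, k2, mul_assoc a2 y₃, hy₃]) hT2 hc₄
  have d4 := ((d2.mul_el01 (y₂ + y₃)).mul_W).mul_el01 z
  refine ⟨x₁, y₁, x₂, y₂ + y₃, z, g + a2 * y₃, -τ, ?_⟩
  have e1 : b2 + a2 * (y₂ + y₃) = g + a2 * y₃ := by rw [mul_add, ← add_assoc, hg]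
  have e2 : bs2 + (y₂ + y₃) * as2 = g + a2 * y₃ := by
    rw [add_mul, ← add_assoc, ← k1, hy₃]
  rw [e1, e2] at d4
  have e3 : -a2 + (g + a2 * y₃) * z = algebraMap R Λ (-τ) := by
    rw [map_neg]
    nth_rewrite 1 [hz1]
    abel
  have e4 : -as2 + z * (g + a2 * y₃) = algebraMap R Λ (-τ) := by
    rw [map_neg]
    nth_rewrite 1 [hz2]
    abel
  rw [e3, e4] at d4
  rw [hA1, hA2]
  exact d4

end Comp

section Family

variable {ι : Type*} {N : ι → ℕ} {R Λ : ι → Type*} [∀ i, CommRing (R i)]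
  [∀ i, IsLocalization.Away (N i : ℤ) (R i)] [∀ i, Ring (Λ i)]
  [∀ i, Algebra (R i) (Λ i)] [∀ i, Module.Free (R i) (Λ i)] [∀ i, Module.Finite (R i) (Λ i)]

theorem comp_el (i : ι) (a b : Fin 2) (h : a ≠ b) (x : ∀ i, Λ i) :
    comp (m := Fin 2) (Λ := Λ) i (el a b h x) = el a b h (x i) := by
  apply Units.ext
  ext k l
  rw [comp_val]
  change ((1 : Matrix (Fin 2) (Fin 2) (∀ i, Λ i)) + Matrix.single a b x) k l i =
    ((1 : Matrix (Fin 2) (Fin 2) (Λ i)) + Matrix.single a b (x i)) k l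
  rw [Matrix.add_apply, Matrix.add_apply, Pi.add_apply, Matrix.single_apply,
    Matrix.single_apply, Matrix.one_apply, Matrix.one_apply]
  congr 1
  · split_ifs
    · rfl
    · rfl
  · split_ifs
    · rfl
    · rfl

theorem comp_W (i : ι) : comp i (W : (Matrix (Fin 2) (Fin 2) (∀ i, Λ i))ˣ) = W := by
  unfold W
  rw [map_mul, map_mul, comp_el, comp_el]
  rfl

/-- matrices of reduced norm one are products of elementary matrices and ONE matrix of type `T` -/
theorem mem_of_SLfam (hN : ∀ i, N i ≠ 0) (Q : ∀ i, QAlg (N i) (R i) (Λ i))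
    [∀ i, NoZeroDivisors (Λ i)] (S : Subgroup (Matrix (Fin 2) (Fin 2) (∀ i, Λ i))ˣ)
    (hel : ∀ (i j : Fin 2) (h : i ≠ j) (x : ∀ i, Λ i), el i j h x ∈ S)
    (hT : ∀ x r α β h, (fam Q).Tm x r α β h ∈ S)
    (A : (Matrix (Fin 2) (Fin 2) (∀ i, Λ i))ˣ) (hA : A ∈ SLfam N) : A ∈ S := by
  choose x₁ y₁ x₂ y₂ z g r h using fun i => comp_main (hN i) (Q i) (comp i A) (hA i)
  have hW : (W : (Matrix (Fin 2) (Fin 2) (∀ i, Λ i))ˣ) ∈ S :=
    mul_mem (mul_mem (hel _ _ _ _) (hel _ _ _ _)) (hel _ _ _ _)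
  obtain ⟨B, hB⟩ : ∃ B, B = A * el 1 0 (by decide) x₁ * el 0 1 (by decide) y₁ *
    el 1 0 (by decide) x₂ * el 0 1 (by decide) y₂ * W * el 0 1 (by decide) z := ⟨_, rfl⟩
  have hcB : ∀ i, comp i B = comp i A * el 1 0 (by decide) (x₁ i) * el 0 1 (by decide) (y₁ i) *
    el 1 0 (by decide) (x₂ i) * el 0 1 (by decide) (y₂ i) * W * el 0 1 (by decide) (z i) := by
    intro i
    rw [hB]
    simp only [map_mul, comp_el, comp_W]
  have hdata : HasData B g (cen r) (cen r) g := by
    refine ⟨?_, ?_, ?_, ?_⟩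
    · funext i
      have := (h i).h00
      rw [← hcB] at this
      exact this
    · funext i
      have := (h i).h01
      rw [← hcB] at this
      exact this
    · funext i
      have := (h i).h0
      rw [← hcB] at this
      exact this
    · funext i
      have := (h i).h1
      rw [← hcB] at this
      exact this
  have hcop : ∃ α β : ∀ i, R i, α * (fam Q).n g + β * r = 1 := by
    have h1 := hdata.rel.1
    refine ⟨_, _, (fam Q).coprime g (B⁻¹.val 0 0) (B⁻¹.val 1 0) r ?_⟩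
    rw [← h1]
    congr 1
    funext i
    exact Algebra.smul_def _ _
  obtain ⟨α, β, hαβ⟩ := hcop
  have hBS : B ∈ S := by
    obtain ⟨x, hx⟩ := same_data_el hdata (Tm_data Q g r α β hαβ)
    have h1 : B = el 1 0 (by decide) x * (fam Q).Tm g r α β hαβ := by
      rw [← hx, inv_mul_cancel_right]
    rw [h1]
    exact mul_mem (hel _ _ _ _) (hT _ _ _ _ _)
  rw [hB] at hBS
  have h1 := (Subgroup.mul_mem_cancel_right _ (hel _ _ _ _)).1 hBS
  have h2 := (Subgroup.mul_mem_cancel_right _ hW).1 h1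
  have h3 := (Subgroup.mul_mem_cancel_right _ (hel _ _ _ _)).1 h2
  have h4 := (Subgroup.mul_mem_cancel_right _ (hel _ _ _ _)).1 h3
  have h5 := (Subgroup.mul_mem_cancel_right _ (hel _ _ _ _)).1 h4
  exact (Subgroup.mul_mem_cancel_right _ (hel _ _ _ _)).1 h5

end Family

end BWF
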